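import Mathlib
import Pool.Graph.R_pool_sql_team_seeded_620a6dc7.Helper403_SZ.CDefs
import Pool.Graph.R_seed8.Helper669.KMain
import Pool.Graph.R_seed8.Helper669.KA2

set_option autoImplicit false

/-!
# Names of normal measures
-/

namespace Pool.Agent.H53.Gal

open Cardinal Set Pool.Agent.Helper669.Forcing Pool.Agent.Helper669.K Pool.Agent.W873.Tp
open Pool.Agent.W873.Vi Pool.Agent.Helper403.SZ

section basics

variable {P : Type} [Preorder P]

theorem meets_meets {N : Set P} {q : P} (h : q ∈ meets (meets N)) : q ∈ meets N := by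
  intro q1 h1
  obtain ⟨r, hr, s, hs, hle⟩ := h q1 h1
  obtain ⟨r', hr', s', hs', hle'⟩ := hs r hle
  exact ⟨r', hr'.trans hr, s', hs', hle'⟩

theorem meets_meets_iff {N : Set P} {q : P} : q ∈ meets (meets N) ↔ q ∈ meets N :=
  ⟨meets_meets, fun h => meets_of_mem h⟩

theorem meets_mono {N N' : Set P} (h : N ⊆ N') {q : P} (hq : q ∈ meets N) : q ∈ meets N' := by
  intro q1 h1
  obtain ⟨r, hr, s, hs, hle⟩ := hq q1 h1
  exact ⟨r, hr, s, h hs, hle⟩

theorem not_meets_empty' {q : P} : q ∉ meets (∅ : Set P) := by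
  intro h
  obtain ⟨_, _, s, hs, _⟩ := h q le_rfl
  exact hs

/-- a decision -/
theorem exists_or (A : Set P) (q : P) : (∃ r ≤ q, r ∈ A) ∨ q ∈ fnot A := by
  by_cases h : ∃ r ≤ q, r ∈ A
  · exact Or.inl h
  · push Not at h
    exact Or.inr h

/-- a set which is closed downwards and contains every condition below which it is dense -/
structure Reg (A : Set P) : Prop where
  down : Down A
  reg : ∀ q, q ∈ meets A → q ∈ A

theorem reg_meets (N : Set P) : Reg (meets N) := ⟨down_meets N, fun _ => meets_meets⟩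

theorem Reg.of_dense {A : Set P} (h : Reg A) {q : P} (hd : ∀ q' ≤ q, ∃ r ≤ q', r ∈ A) : q ∈ A :=
  h.reg q fun q' hq' => by
    obtain ⟨r, hr, hA⟩ := hd q' hq'
    exact ⟨r, hr, r, hA, le_rfl⟩

theorem Reg.meets_eq {A : Set P} (h : Reg A) : meets A = A :=
  Set.ext fun q => ⟨h.reg q, fun hq => meets_of_mem hq⟩

theorem reg_fnot {A : Set P} (h : Down A) : Reg (fnot A) := by
  refine ⟨down_fnot A, fun q hq => ?_⟩
  exact meets_fnot h hq

theorem reg_fall {ι : Sort*} {A : ι → Set P} (h : ∀ i, Reg (A i)) : Reg (fall A) := by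
  refine ⟨down_fall fun i => (h i).down, fun q hq i => (h i).reg q ?_⟩
  exact meets_mono (N := fall A) (N' := A i) (fun r hr => hr i) hq

end basics

/-- `V` is a name of a normal measure on `κ`, in a strong form: the sentence `Y ∈ V` is forced by
exactly the conditions in `V Y`. -/
structure NMeas {P : Type} [Preorder P] (κ : Cardinal.{0}) (V : (Ik κ → Set P) → Set P) :
    Prop where
  down : ∀ Y, Down (V Y)
  reg : ∀ Y q, q ∈ meets (V Y) → q ∈ V Y
  mono : ∀ Y Z q, q ∈ V Y → (∀ a, ∀ r ≤ q, r ∈ meets (Y a) → r ∈ meets (Z a)) → q ∈ V Z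
  disj : ∀ Y q, q ∈ V Y → q ∉ V (nCompl Y)
  dec : ∀ Y q, ∃ q' ≤ q, q' ∈ V Y ∨ q' ∈ V (nCompl Y)
  diag : ∀ (Y : Ik κ → Ik κ → Set P) q, (∀ γ, q ∈ V (Y γ)) →
    q ∈ V (fun β => {r | ∀ γ < β, r ∈ meets (Y γ β)})
  clos : ∀ (f : Ik κ → Ik κ) (q : P), q ∈ V (fun β => {_p | ∀ γ < β, f γ < β})
  tail : ∀ (a : Ik κ) (q : P), q ∈ V (fun β => {_p | a < β})
  compl : ∀ (ι : Type) (Y : ι → Ik κ → Set P) q, #ι < κ → (∀ i, q ∈ V (Y i)) →
    q ∈ V (fun β => {r | ∀ i, r ∈ meets (Y i β)})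

namespace NMeas

variable {P : Type} [Preorder P] {κ : Cardinal.{0}} {V : (Ik κ → Set P) → Set P}

theorem isReg (h : NMeas κ V) (Y : Ik κ → Set P) : Reg (V Y) := ⟨h.down Y, h.reg Y⟩

theorem congr (h : NMeas κ V) {Y Z : Ik κ → Set P}
    (hYZ : ∀ a q, q ∈ meets (Y a) ↔ q ∈ meets (Z a)) : V Y = V Z :=
  Set.ext fun q => ⟨fun hq => h.mono Y Z q hq fun a r _ => (hYZ a r).1,
    fun hq => h.mono Z Y q hq fun a r _ => (hYZ a r).2⟩

theorem not_empty (h : NMeas κ V) {Y : Ik κ → Set P} {q : P} (hY : ∀ a, ∀ r ≤ q, r ∉ meets (Y a)) :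
    q ∉ V Y := fun hq =>
  h.disj Y q hq (h.mono Y (nCompl Y) q hq fun a r hr hm => absurd hm (hY a r hr))

/-- two members of the measure intersect -/
theorem inter2 (h : NMeas κ V) (hκ : ℵ₀ < κ) {Y Z : Ik κ → Set P} {q : P} (hY : q ∈ V Y)
    (hZ : q ∈ V Z) : q ∈ V (fun β => {r | r ∈ meets (Y β) ∧ r ∈ meets (Z β)}) := by
  have h1 := h.compl Bool (fun b => if b then Y else Z) q
    (by rw [mk_bool]; exact (natCast_lt_aleph0 (n := 2)).trans hκ) (fun b => by cases b <;> simpa)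
  refine h.mono _ _ q h1 fun a r _ hr => meets_mono (fun s hs => ?_) hr
  exact ⟨by simpa using hs true, by simpa using hs false⟩

theorem exists_mem (h : NMeas κ V) {Y : Ik κ → Set P} {q : P} (hY : q ∈ V Y) :
    ∃ a, ∃ r ≤ q, r ∈ meets (Y a) := by
  by_contra hcon
  push Not at hcon
  exact h.not_empty hcon hY

end NMeas

end Pool.Agent.H53.Gal
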