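import Mathlib
import Pool.Agent.H53.Gal.Basic

set_option autoImplicit false

/-!
# The action of automorphisms on names of measures
-/

namespace Pool.Agent.H53.Gal

open Cardinal Set Pool.Agent.Helper669.Forcing Pool.Agent.Helper669.K Pool.Agent.W873.Tp
open Pool.Agent.W873.Vi Pool.Agent.Helper403.SZ

variable {P : Type} [Preorder P] {κ : Cardinal.{0}}

/-- the image of a name of a subset of `κ` -/
def twN (θ : P ≃o P) (Y : Ik κ → Set P) : Ik κ → Set P := fun β => {w | θ.symm w ∈ Y β}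

/-- the image of a name of a measure -/
def twV (θ : P ≃o P) (V : (Ik κ → Set P) → Set P) : (Ik κ → Set P) → Set P := fun Y =>
  {q | θ q ∈ V (twN θ Y)}

theorem meets_tw (θ : P ≃o P) (N : Set P) (q : P) :
    q ∈ meets {w | θ.symm w ∈ N} ↔ θ.symm q ∈ meets N := by
  constructor
  · intro h q1 h1
    obtain ⟨r, hr, s, hs, hle⟩ := h (θ q1) (by rwa [← θ.le_symm_apply])
    exact ⟨θ.symm r, by rwa [θ.symm_apply_le], θ.symm s, hs, by simpa using hle⟩
  · intro h q1 h1
    obtain ⟨r, hr, s, hs, hle⟩ := h (θ.symm q1) (by simpa using h1)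
    exact ⟨θ r, by rwa [← θ.le_symm_apply], θ s, by simpa using hs, by simpa using hle⟩

theorem meets_twN (θ : P ≃o P) (Y : Ik κ → Set P) (a : Ik κ) (q : P) :
    q ∈ meets (twN θ Y a) ↔ θ.symm q ∈ meets (Y a) := meets_tw θ (Y a) q

theorem NMeas.twist {V : (Ik κ → Set P) → Set P} (h : NMeas κ V) (θ : P ≃o P) :
    NMeas κ (twV θ V) := by
  have hcompl : ∀ Y : Ik κ → Set P, V (twN θ (nCompl Y)) = V (nCompl (twN θ Y)) := by
    intro Y
    refine h.congr fun a q => ?_
    rw [meets_twN]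
    have h1 : Reg (nCompl Y a) := reg_fnot (down_meets _)
    have h2 : Reg (nCompl (twN θ Y) a) := reg_fnot (down_meets _)
    rw [h1.meets_eq, h2.meets_eq]
    constructor
    · intro h3 r hr h4
      exact h3 (θ.symm r) (by simpa using hr) ((meets_twN θ Y a r).1 h4)
    · intro h3 r hr h4
      refine h3 (θ r) (by rwa [← θ.le_symm_apply]) ((meets_twN θ Y a _).2 ?_)
      simpa using h4
  refine ⟨?_, ?_, ?_, ?_, ?_, ?_, ?_, ?_, ?_⟩
  · intro Y q hq q' hle
    exact h.down _ _ hq _ (by simpa using hle)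
  · intro Y q hq
    refine h.reg _ _ fun q1 h1 => ?_
    obtain ⟨r, hr, s, hs, hle⟩ := hq (θ.symm q1) (by rwa [θ.symm_apply_le])
    exact ⟨θ r, by rwa [← θ.le_symm_apply], θ s, hs, by simpa using hle⟩
  · intro Y Z q hq hYZ
    refine h.mono _ _ _ hq fun a r hr hm => ?_
    rw [meets_twN] at hm ⊢
    exact hYZ a (θ.symm r) (by rwa [θ.symm_apply_le]) hm
  · intro Y q hq hq'
    refine h.disj _ _ hq ?_
    rw [← hcompl]
    exact hq'
  · intro Y q
    obtain ⟨q', hq', h1⟩ := h.dec (twN θ Y) (θ q)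
    refine ⟨θ.symm q', by rwa [θ.symm_apply_le], ?_⟩
    rcases h1 with h1 | h1
    · left
      change θ (θ.symm q') ∈ V (twN θ Y)
      simpa using h1
    · right
      change θ (θ.symm q') ∈ V (twN θ (nCompl Y))
      rw [hcompl]
      simpa using h1
  · intro Y q hq
    have h1 := h.diag (fun γ => twN θ (Y γ)) (θ q) hq
    refine h.mono _ _ _ h1 fun a r _ hm => ?_
    rw [meets_twN]
    intro q1 hq1
    obtain ⟨r', hr', s, hs, hle⟩ := hm (θ q1) (by rwa [← θ.le_symm_apply])
    refine ⟨θ.symm r', by rwa [θ.symm_apply_le], θ.symm s, fun γ hγ => ?_, by simpa using hle⟩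
    exact (meets_twN θ (Y γ) a s).1 (hs γ hγ)
  · intro f q
    exact h.clos f (θ q)
  · intro a q
    exact h.tail a (θ q)
  · intro ι Y q hι hq
    have h1 := h.compl ι (fun i => twN θ (Y i)) (θ q) hι hq
    refine h.mono _ _ _ h1 fun a r _ hm => ?_
    rw [meets_twN]
    intro q1 hq1
    obtain ⟨r', hr', s, hs, hle⟩ := hm (θ q1) (by rwa [← θ.le_symm_apply])
    refine ⟨θ.symm r', by rwa [θ.symm_apply_le], θ.symm s, fun i => ?_, by simpa using hle⟩
    exact (meets_twN θ (Y i) a s).1 (hs i)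

end Pool.Agent.H53.Gal
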