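import Mathlib
import Pool.Agent.H53.Gal.Twist
import Pool.Graph.R_seed8.Helper669.KA3

set_option autoImplicit false

/-!
# Restrictions of conditions, automorphisms, and coherence
-/

namespace Pool.Agent.H53.Gal

open Cardinal Set Pool.Agent.Helper669.Forcing Pool.Agent.Helper669.K Pool.Agent.W873.Tp
open Pool.Agent.W873.Vi Pool.Agent.Helper403.SZ

/-- the cardinal `κ⁺` as a well ordered set -/
abbrev Kp (κ : Cardinal.{0}) : Type := (Order.succ κ).ord.ToType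

/-- the forcing notion is an increasing union of `κ⁺` many factors, and has commuting
automorphisms `θ x` for the subsets `x` of `κ⁺` -/
structure Frame (κ : Cardinal.{0}) (P : Type) [Preorder P] where
  cut : Kp κ → P → P
  le_cut : ∀ σ q, q ≤ cut σ q
  cut_mono : ∀ σ q' q, q' ≤ q → cut σ q' ≤ cut σ q
  cut_cut : ∀ σ σ' q, σ ≤ σ' → cut σ (cut σ' q) = cut σ q
  cut_cut' : ∀ σ σ' q, σ ≤ σ' → cut σ' (cut σ q) = cut σ q
  cut_eq : ∀ q, ∃ σ, cut σ q = q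
  amal : ∀ σ w q, cut σ w ≤ cut σ q → ∃ z, z ≤ cut σ w ∧ z ≤ q
  θ : Set (Kp κ) → (P ≃o P)
  θ_inv : ∀ x q, θ x (θ x q) = q
  θ_cut : ∀ x σ q, θ x (cut σ q) = cut σ (θ x q)
  θ_loc : ∀ (x y : Set (Kp κ)) (σ : Kp κ) (q : P), (∀ η < σ, η ∈ x ↔ η ∈ y) →
    θ x (cut σ q) = θ y (cut σ q)

namespace Frame

variable {P : Type} [Preorder P] {κ : Cardinal.{0}} (T : Frame κ P)

theorem θ_symm (x : Set (Kp κ)) (q : P) : (T.θ x).symm q = T.θ x q := by
  rw [OrderIso.symm_apply_eq, T.θ_inv]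

/-- a regular set depends on few coordinates -/
theorem supp (hκ : ℵ₀ ≤ κ) (hcc : CC P κ) (A : Set P) :
    ∃ σ, ∀ σ' ≥ σ, ∀ q, q ∈ meets A ↔ T.cut σ' q ∈ meets A := by
  obtain ⟨N, hN1, hN2⟩ := exists_nice (κ := κ) hcc A
  choose s hs using fun n : N => T.cut_eq n.1
  obtain ⟨σ, hσ⟩ := h400_bdd hκ N hN1 s
  refine ⟨σ, fun σ' hσ' q => ?_⟩
  have hN : ∀ n ∈ N, T.cut σ' n = n := by
    intro n hn
    have h1 := T.cut_cut' (s ⟨n, hn⟩) σ' n ((hσ ⟨n, hn⟩).trans hσ')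
    rwa [hs ⟨n, hn⟩] at h1
  rw [← hN2, ← hN2]
  constructor
  · intro hq w hw
    have h1 : T.cut σ' w ≤ T.cut σ' q := by
      have := T.cut_mono σ' _ _ hw
      rwa [T.cut_cut _ _ _ le_rfl] at this
    obtain ⟨z, hz1, hz2⟩ := T.amal σ' w q h1
    obtain ⟨r, hr, n, hn, hle⟩ := hq z hz2
    have h2 : T.cut σ' r ≤ n := by
      have := T.cut_mono σ' _ _ hle
      rwa [hN n hn] at this
    have h3 : T.cut σ' r ≤ T.cut σ' w := by
      have := T.cut_mono σ' _ _ (hr.trans hz1)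
      rwa [T.cut_cut _ _ _ le_rfl] at this
    obtain ⟨z', hz1', hz2'⟩ := T.amal σ' r w h3
    exact ⟨z', hz2', n, hn, hz1'.trans h2⟩
  · intro hq
    exact down_meets _ _ hq _ (T.le_cut _ _)

/-- the measure attached to the set `x` -/
def Vx (V : (Ik κ → Set P) → Set P) (x : Set (Kp κ)) : (Ik κ → Set P) → Set P := twV (T.θ x) V

theorem nmeas_Vx {V : (Ik κ → Set P) → Set P} (hV : NMeas κ V) (x : Set (Kp κ)) :
    NMeas κ (T.Vx V x) := hV.twist (T.θ x)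

theorem coh (hκ : κ.IsInaccessible) (hcc : CC P κ) {V : (Ik κ → Set P) → Set P}
    (hV : NMeas κ V) (Y : Ik κ → Set P) :
    ∃ σ : Kp κ, ∀ x y : Set (Kp κ), #x < κ → #y < κ → (∀ η < σ, η ∈ x ↔ η ∈ y) →
      T.Vx V x Y = T.Vx V y Y := by
  classical
  have hκ0 : ℵ₀ ≤ κ := hκ.1.le
  choose s hs using fun β => T.supp hκ0 hcc (Y β)
  obtain ⟨σ0, hσ0⟩ := h400_bdd hκ0 (Ik κ) (mk_ord_toType _).le s
  -- dependence of the name on `x`
  have h1 : ∀ x y : Set (Kp κ), (∀ η < σ0, η ∈ x ↔ η ∈ y) →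
      V (twN (T.θ x) Y) = V (twN (T.θ y) Y) := by
    intro x y hxy
    refine hV.congr fun a q => ?_
    rw [meets_twN, meets_twN, T.θ_symm, T.θ_symm, hs a σ0 (hσ0 a) (T.θ x q),
      hs a σ0 (hσ0 a) (T.θ y q), ← T.θ_cut, ← T.θ_cut, T.θ_loc x y σ0 q hxy]
  -- the supports of the values
  choose t ht using fun A : {A : Set (Iio σ0) // #A < κ} =>
    T.supp hκ0 hcc (V (twN (T.θ (Subtype.val '' A.1)) Y))
  have hcard : #{A : Set (Iio σ0) // #A < κ} ≤ κ := by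
    refine exists_agree_count hκ.isRegular (fun μ hμ => hκ.isStrongLimit.two_power_lt hμ) ?_
    exact Order.lt_succ_iff.1 (mk_Iio_toType_ord_lt σ0)
  obtain ⟨σ1, hσ1⟩ := h400_bdd hκ0 _ hcard t
  refine ⟨max σ0 σ1, fun x y hx hy hxy => ?_⟩
  let A : Set (Iio σ0) := {w | w.1 ∈ x}
  have hA : #A < κ := by
    refine lt_of_le_of_lt ?_ hx
    refine mk_le_of_injective (f := fun w : A => (⟨w.1.1, w.2⟩ : x)) fun w w' h => ?_
    simp only [Subtype.mk.injEq] at h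
    exact Subtype.ext (Subtype.ext h)
  have hAx : ∀ η < σ0, η ∈ x ↔ η ∈ Subtype.val '' A := by
    intro η hη
    constructor
    · intro h
      exact ⟨⟨η, hη⟩, h, rfl⟩
    · rintro ⟨w, hw, rfl⟩
      exact hw
  have hAy : ∀ η < σ0, η ∈ y ↔ η ∈ Subtype.val '' A := fun η hη =>
    (hxy η (lt_max_of_lt_left hη)).symm.trans (hAx η hη)
  ext q
  change T.θ x q ∈ V (twN (T.θ x) Y) ↔ T.θ y q ∈ V (twN (T.θ y) Y)
  rw [h1 x _ hAx, h1 y _ hAy]
  have h2 := ht ⟨A, hA⟩ (max σ0 σ1) ((hσ1 ⟨A, hA⟩).trans (le_max_right _ _))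
  rw [(hV.isReg _).meets_eq] at h2
  rw [h2 (T.θ x q), h2 (T.θ y q), ← T.θ_cut, ← T.θ_cut, T.θ_loc x y _ q hxy]

end Frame

end Pool.Agent.H53.Gal
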