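import Mathlib
import Pool.Agent.H53.Gal.Frame
import Pool.Graph.R_pool_sql_team_seeded_620a6dc7.Helper403_SZ.TB2a
import Pool.Graph.R_pool_sql_team_seeded_620a6dc7.Helper403_SZ.TB2b

set_option autoImplicit false
set_option linter.unusedSectionVars false

/-!
# The named forcing adding many Cohen subsets of `κ`
-/

namespace Pool.Agent.H53.Gal

open Cardinal Set Pool.Agent.Helper669.Forcing Pool.Agent.Helper669.K Pool.Agent.W873.Tp
open Pool.Agent.W873.Vi Pool.Agent.Helper403.SZ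

/-- levels of the rows, and two special rows on every level -/
structure Rows (κ : Cardinal.{0}) (L : Type) where
  lev : L → Kp κ
  ra : Kp κ → L
  rb : Kp κ → L
  lev_ra : ∀ η, lev (ra η) = η
  lev_rb : ∀ η, lev (rb η) = η
  ne : ∀ η, ra η ≠ rb η

namespace Rows

variable {κ : Cardinal.{0}} {L : Type} (T : Rows κ L)

open Classical in
/-- exchange the two special rows on the levels in `x` -/
noncomputable def sw (x : Set (Kp κ)) (ξ : L) : L :=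
  if T.lev ξ ∈ x then
    (if ξ = T.ra (T.lev ξ) then T.rb (T.lev ξ) else
      if ξ = T.rb (T.lev ξ) then T.ra (T.lev ξ) else ξ) else ξ

theorem lev_sw (x : Set (Kp κ)) (ξ : L) : T.lev (T.sw x ξ) = T.lev ξ := by
  unfold sw
  split_ifs
  · exact T.lev_rb _
  · exact T.lev_ra _
  · rfl
  · rfl

theorem sw_congr {x y : Set (Kp κ)} {ξ : L} (h : T.lev ξ ∈ x ↔ T.lev ξ ∈ y) :
    T.sw x ξ = T.sw y ξ := by
  unfold sw
  by_cases h1 : T.lev ξ ∈ x
  · rw [if_pos h1, if_pos (h.1 h1)]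
  · rw [if_neg h1, if_neg (fun h2 => h1 (h.2 h2))]

theorem sw_sw (x : Set (Kp κ)) (ξ : L) : T.sw x (T.sw x ξ) = ξ := by
  by_cases h1 : T.lev ξ ∈ x
  · by_cases h2 : ξ = T.ra (T.lev ξ)
    · have h3 : T.sw x ξ = T.rb (T.lev ξ) := by
        unfold sw
        rw [if_pos h1, if_pos h2]
      rw [h3]
      unfold sw
      rw [T.lev_rb, if_pos h1, if_neg (T.ne _).symm, if_pos rfl]
      exact h2.symm
    · by_cases h4 : ξ = T.rb (T.lev ξ)
      · have h3 : T.sw x ξ = T.ra (T.lev ξ) := by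
          unfold sw
          rw [if_pos h1, if_neg h2, if_pos h4]
        rw [h3]
        unfold sw
        rw [T.lev_ra, if_pos h1, if_pos rfl]
        exact h4.symm
      · have h3 : T.sw x ξ = ξ := by
          unfold sw
          rw [if_pos h1, if_neg h2, if_neg h4]
        rw [h3, h3]
  · have h3 : T.sw x ξ = ξ := by
      unfold sw
      rw [if_neg h1]
    rw [h3, h3]

theorem sw_rb {x : Set (Kp κ)} {η : Kp κ} (h : η ∈ x) : T.sw x (T.rb η) = T.ra η := by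
  unfold sw
  rw [T.lev_rb, if_pos h, if_neg (T.ne _).symm, if_pos rfl]

theorem sw_of_not {x : Set (Kp κ)} {ξ : L} (h : T.lev ξ ∉ x) : T.sw x ξ = ξ := by
  unfold sw
  rw [if_neg h]

end Rows

section

variable {κ : Cardinal.{0}} {L R : Type} [LinearOrder L] [Preorder R]

/-- the weights of the Cohen forcing: a promise `inr β` at `ξ` says that `β` is not put into the
row `ξ` any more -/
def W0 : Wg κ L R Empty := fun _ i β => {_x | ∀ β0, i = Sum.inr β0 → β ≠ β0}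

theorem goodW0 (ξ : L) : GoodW (W0 (κ := κ) (L := L) (R := R)) ξ where
  mono _ _ _ _ _ _ _ _ h := h
  loc _ _ t _ h := by
    obtain ⟨t'', _, h'⟩ := h t le_rfl
    exact h'

/-- the named order -/
def N0 (κ : Cardinal.{0}) (L R : Type) [LinearOrder L] [Preorder R] : NOrd R (BC κ L R Empty) :=
  NW W0 goodW0

theorem rel0_iff {r : R} {p' p : BC κ L R Empty} : r ∈ (N0 κ L R).rel p' p ↔
    p.E ⊆ p'.E ∧ ∀ ξ β t, t ≤ r → (t ∈ meets (Nm p ξ β) → t ∈ meets (Nm p' ξ β)) ∧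
      ((ξ, Sum.inr β) ∈ p.E → t ∈ meets (Nm p' ξ β) → t ∉ fnot (meets (Nm p ξ β))) := by
  constructor
  · intro h
    refine ⟨h.1, fun ξ β t ht => ⟨(h.2 ξ β t ht).1, fun h1 h2 h3 => ?_⟩⟩
    exact (h.2 ξ β t ht).2 _ h1 h2 h3 β rfl rfl
  · intro h
    refine ⟨h.1, fun ξ β t ht => ⟨(h.2 ξ β t ht).1, fun i h1 h2 h3 => ?_⟩⟩
    rcases i with e | β0
    · exact e.elim
    · rintro β1 h4 rfl
      simp only [Sum.inr.injEq] at h4
      subst h4
      exact (h.2 ξ _ t ht).2 h1 h2 h3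

/-- the forcing notion -/
abbrev Q0 (κ : Cardinal.{0}) (L R : Type) [LinearOrder L] [Preorder R] : Type := Two (N0 κ L R)

/-- the part of a condition with rows in `S` -/
def cutC (S : Set L) (p : BC κ L R Empty) : BC κ L R Empty where
  s := {x | x ∈ p.s ∧ x.1 ∈ S}
  E := {x | x ∈ p.E ∧ x.1 ∈ S}
  hs := (mk_le_mk_of_subset fun _ h => h.1).trans_lt p.hs
  hE := (mk_le_mk_of_subset fun _ h => h.1).trans_lt p.hE

theorem Nm_cutC_of_mem {S : Set L} {p : BC κ L R Empty} {ξ : L} (h : ξ ∈ S)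
    (β : κ.ord.ToType) : Nm (cutC S p) ξ β = Nm p ξ β := by
  ext u
  exact ⟨fun hu => hu.1, fun hu => ⟨hu, h⟩⟩

theorem Nm_cutC_of_not {S : Set L} {p : BC κ L R Empty} {ξ : L} (h : ξ ∉ S)
    (β : κ.ord.ToType) : Nm (cutC S p) ξ β = ∅ := by
  ext u
  exact ⟨fun hu => absurd hu.2 h, fun hu => hu.elim⟩

theorem rel0_cutC (S : Set L) (p : BC κ L R Empty) (r : R) :
    r ∈ (N0 κ L R).rel p (cutC S p) := by
  refine rel0_iff.2 ⟨fun x hx => hx.1, fun ξ β t _ => ?_⟩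
  by_cases h : ξ ∈ S
  · rw [Nm_cutC_of_mem h]
    exact ⟨id, fun _ h1 h2 => h2 t le_rfl h1⟩
  · rw [Nm_cutC_of_not h]
    exact ⟨fun h1 => absurd h1 (not_meets_empty t), fun h1 => absurd h1.2 h⟩

theorem rel0_cutC_mono (S : Set L) {p' p : BC κ L R Empty} {r : R}
    (h : r ∈ (N0 κ L R).rel p' p) : r ∈ (N0 κ L R).rel (cutC S p') (cutC S p) := by
  rw [rel0_iff] at h ⊢
  refine ⟨fun x hx => ⟨h.1 hx.1, hx.2⟩, fun ξ β t ht => ?_⟩
  by_cases h1 : ξ ∈ S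
  · rw [Nm_cutC_of_mem h1, Nm_cutC_of_mem h1]
    exact ⟨(h.2 ξ β t ht).1, fun h2 => (h.2 ξ β t ht).2 h2.1⟩
  · rw [Nm_cutC_of_not h1, Nm_cutC_of_not h1]
    exact ⟨fun h2 => absurd h2 (not_meets_empty t), fun h2 => absurd h2.2 h1⟩

/-- `p` on the rows in `S`, `q` on the others -/
def amC (hκ : ℵ₀ ≤ κ) (S : Set L) (p q : BC κ L R Empty) : BC κ L R Empty where
  s := {x | x ∈ p.s ∧ x.1 ∈ S} ∪ {x | x ∈ q.s ∧ x.1 ∉ S}
  E := {x | x ∈ p.E ∧ x.1 ∈ S} ∪ {x | x ∈ q.E ∧ x.1 ∉ S}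
  hs := (mk_union_le _ _).trans_lt (add_lt_of_lt hκ
    ((mk_le_mk_of_subset fun _ h => h.1).trans_lt p.hs)
    ((mk_le_mk_of_subset fun _ h => h.1).trans_lt q.hs))
  hE := (mk_union_le _ _).trans_lt (add_lt_of_lt hκ
    ((mk_le_mk_of_subset fun _ h => h.1).trans_lt p.hE)
    ((mk_le_mk_of_subset fun _ h => h.1).trans_lt q.hE))

theorem Nm_amC_of_mem (hκ : ℵ₀ ≤ κ) {S : Set L} {p q : BC κ L R Empty} {ξ : L} (h : ξ ∈ S)
    (β : κ.ord.ToType) : Nm (amC hκ S p q) ξ β = Nm p ξ β := by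
  ext u
  constructor
  · rintro (hu | hu)
    · exact hu.1
    · exact absurd h hu.2
  · intro hu
    exact Or.inl ⟨hu, h⟩

theorem Nm_amC_of_not (hκ : ℵ₀ ≤ κ) {S : Set L} {p q : BC κ L R Empty} {ξ : L} (h : ξ ∉ S)
    (β : κ.ord.ToType) : Nm (amC hκ S p q) ξ β = Nm q ξ β := by
  ext u
  constructor
  · rintro (hu | hu)
    · exact absurd hu.2 h
    · exact hu.1
  · intro hu
    exact Or.inr ⟨hu, h⟩

theorem rel0_amC_left (hκ : ℵ₀ ≤ κ) (S : Set L) (p q : BC κ L R Empty) (r : R) :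
    r ∈ (N0 κ L R).rel (amC hκ S p q) (cutC S p) := by
  refine rel0_iff.2 ⟨fun x hx => Or.inl hx, fun ξ β t _ => ?_⟩
  by_cases h : ξ ∈ S
  · rw [Nm_cutC_of_mem h, Nm_amC_of_mem hκ h]
    exact ⟨id, fun _ h1 h2 => h2 t le_rfl h1⟩
  · rw [Nm_cutC_of_not h]
    exact ⟨fun h1 => absurd h1 (not_meets_empty t), fun h1 => absurd h1.2 h⟩

theorem rel0_amC_right (hκ : ℵ₀ ≤ κ) (S : Set L) {p q : BC κ L R Empty} {r : R}
    (h : r ∈ (N0 κ L R).rel (cutC S p) (cutC S q)) : r ∈ (N0 κ L R).rel (amC hκ S p q) q := by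
  rw [rel0_iff] at h
  refine rel0_iff.2 ⟨fun x hx => ?_, fun ξ β t ht => ?_⟩
  · by_cases h1 : x.1 ∈ S
    · exact Or.inl (h.1 ⟨hx, h1⟩)
    · exact Or.inr ⟨hx, h1⟩
  · by_cases h1 : ξ ∈ S
    · have h2 := h.2 ξ β t ht
      rw [Nm_cutC_of_mem h1, Nm_cutC_of_mem h1] at h2
      rw [Nm_amC_of_mem hκ h1]
      exact ⟨h2.1, fun h3 => h2.2 ⟨h3, h1⟩⟩
    · rw [Nm_amC_of_not hκ h1]
      exact ⟨id, fun _ h2 h3 => h3 t le_rfl h2⟩

/-- the action of a permutation of the rows -/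
def permC (g : L → L) (hg : ∀ ξ, g (g ξ) = ξ) (p : BC κ L R Empty) : BC κ L R Empty where
  s := {x | (g x.1, x.2) ∈ p.s}
  E := {x | (g x.1, x.2) ∈ p.E}
  hs := by
    refine lt_of_le_of_lt ?_ p.hs
    refine mk_le_of_injective (f := fun x : {x : L × (κ.ord.ToType × R) | (g x.1, x.2) ∈ p.s} =>
      (⟨(g x.1.1, x.1.2), x.2⟩ : p.s)) fun x y h => ?_
    have h1 := congrArg Subtype.val h
    simp only [Prod.mk.injEq] at h1
    refine Subtype.ext (Prod.ext ?_ h1.2)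
    rw [← hg x.1.1, h1.1, hg]
  hE := by
    refine lt_of_le_of_lt ?_ p.hE
    refine mk_le_of_injective (f := fun x : {x : L × (Empty ⊕ κ.ord.ToType) |
      (g x.1, x.2) ∈ p.E} => (⟨(g x.1.1, x.1.2), x.2⟩ : p.E)) fun x y h => ?_
    have h1 := congrArg Subtype.val h
    simp only [Prod.mk.injEq] at h1
    refine Subtype.ext (Prod.ext ?_ h1.2)
    rw [← hg x.1.1, h1.1, hg]

theorem permC_permC (g : L → L) (hg : ∀ ξ, g (g ξ) = ξ) (p : BC κ L R Empty) :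
    permC g hg (permC g hg p) = p := by
  ext x
  · change (g (g x.1), x.2) ∈ p.s ↔ _
    rw [hg]
  · change (g (g x.1), x.2) ∈ p.E ↔ _
    rw [hg]

theorem rel0_permC (g : L → L) (hg : ∀ ξ, g (g ξ) = ξ) {p' p : BC κ L R Empty} {r : R}
    (h : r ∈ (N0 κ L R).rel p' p) : r ∈ (N0 κ L R).rel (permC g hg p') (permC g hg p) := by
  rw [rel0_iff] at h ⊢
  exact ⟨fun x hx => h.1 hx, fun ξ β t ht => h.2 (g ξ) β t ht⟩

/-- the automorphism given by a permutation of the rows -/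
def permQ (g : L → L) (hg : ∀ ξ, g (g ξ) = ξ) : Q0 κ L R ≃o Q0 κ L R where
  toFun q := (q.1, permC g hg q.2)
  invFun q := (q.1, permC g hg q.2)
  left_inv q := Prod.ext rfl (permC_permC g hg q.2)
  right_inv q := Prod.ext rfl (permC_permC g hg q.2)
  map_rel_iff' := by
    intro a b
    constructor
    · rintro ⟨h1, h2⟩
      have h3 := rel0_permC g hg h2
      change a.1 ∈ (N0 κ L R).rel (permC g hg (permC g hg a.2)) (permC g hg (permC g hg b.2)) at h3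
      rw [permC_permC, permC_permC] at h3
      exact ⟨h1, h3⟩
    · rintro ⟨h1, h2⟩
      exact ⟨h1, rel0_permC g hg h2⟩

/-- the name of the row `ξ` -/
def row (ξ : L) : Ik κ → Set (Q0 κ L R) := fun β => {q | ∃ u, (ξ, (β, u)) ∈ q.2.s ∧ q.1 ≤ u}

theorem twN_row (g : L → L) (hg : ∀ ξ, g (g ξ) = ξ) (ξ : L) :
    twN (permQ (κ := κ) (R := R) g hg) (row ξ) = row (g ξ) := by
  funext β
  rfl

end

/-- the frame -/
noncomputable def cohenFrame {κ : Cardinal.{0}} (hκ : ℵ₀ ≤ κ) {L R : Type} [LinearOrder L]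
    [Preorder R] (T : Rows κ L) : Frame κ (Q0 κ L R) where
  cut σ q := (q.1, cutC {ξ | T.lev ξ < σ} q.2)
  le_cut σ q := ⟨le_rfl, rel0_cutC _ _ _⟩
  cut_mono σ q' q h := ⟨h.1, rel0_cutC_mono _ h.2⟩
  cut_cut σ σ' q h := by
    refine Prod.ext rfl ?_
    ext x
    · exact ⟨fun hx => ⟨hx.1.1, hx.2⟩, fun hx => ⟨⟨hx.1, lt_of_lt_of_le hx.2 h⟩, hx.2⟩⟩
    · exact ⟨fun hx => ⟨hx.1.1, hx.2⟩, fun hx => ⟨⟨hx.1, lt_of_lt_of_le hx.2 h⟩, hx.2⟩⟩
  cut_cut' σ σ' q h := by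
    refine Prod.ext rfl ?_
    ext x
    · exact ⟨fun hx => hx.1, fun hx => ⟨hx, lt_of_lt_of_le hx.2 h⟩⟩
    · exact ⟨fun hx => hx.1, fun hx => ⟨hx, lt_of_lt_of_le hx.2 h⟩⟩
  cut_eq q := by
    obtain ⟨σ, hσ⟩ := bdd_of_lt (isRegular_succ hκ)
      ((fun x => T.lev x.1) '' q.2.s ∪ (fun x => T.lev x.1) '' q.2.E) (by
        refine (mk_union_le _ _).trans_lt (add_lt_of_lt (hκ.trans (Order.le_succ κ)) ?_ ?_)
        · exact (mk_image_le.trans_lt q.2.hs).trans (Order.lt_succ κ)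
        · exact (mk_image_le.trans_lt q.2.hE).trans (Order.lt_succ κ))
    refine ⟨σ, Prod.ext rfl ?_⟩
    ext x
    · exact ⟨fun hx => hx.1, fun hx => ⟨hx, hσ _ (Or.inl ⟨x, hx, rfl⟩)⟩⟩
    · exact ⟨fun hx => hx.1, fun hx => ⟨hx, hσ _ (Or.inr ⟨x, hx, rfl⟩)⟩⟩
  amal σ w q h := ⟨(w.1, amC hκ {ξ | T.lev ξ < σ} w.2 q.2), ⟨le_rfl, rel0_amC_left hκ _ _ _ _⟩,
    ⟨h.1, rel0_amC_right hκ _ h.2⟩⟩
  θ x := permQ (T.sw x) (T.sw_sw x)
  θ_inv x q := Prod.ext rfl (permC_permC (T.sw x) (T.sw_sw x) q.2)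
  θ_cut x σ q := by
    refine Prod.ext rfl ?_
    ext y
    · change (_ ∧ T.lev (T.sw x y.1) < σ) ↔ (_ ∧ T.lev y.1 < σ)
      rw [T.lev_sw]
      rfl
    · change (_ ∧ T.lev (T.sw x y.1) < σ) ↔ (_ ∧ T.lev y.1 < σ)
      rw [T.lev_sw]
      rfl
  θ_loc x y σ q h := by
    refine Prod.ext rfl ?_
    have key : ∀ ξ, T.lev ξ < σ → T.sw x ξ = T.sw y ξ := fun ξ hξ => T.sw_congr (h _ hξ)
    ext z
    · change ((T.sw x z.1, z.2) ∈ q.2.s ∧ T.lev (T.sw x z.1) < σ) ↔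
        ((T.sw y z.1, z.2) ∈ q.2.s ∧ T.lev (T.sw y z.1) < σ)
      rw [T.lev_sw, T.lev_sw]
      constructor
      · rintro ⟨h1, h2⟩
        rw [key _ h2] at h1
        exact ⟨h1, h2⟩
      · rintro ⟨h1, h2⟩
        rw [← key _ h2] at h1
        exact ⟨h1, h2⟩
    · change ((T.sw x z.1, z.2) ∈ q.2.E ∧ T.lev (T.sw x z.1) < σ) ↔
        ((T.sw y z.1, z.2) ∈ q.2.E ∧ T.lev (T.sw y z.1) < σ)
      rw [T.lev_sw, T.lev_sw]
      constructor
      · rintro ⟨h1, h2⟩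
        rw [key _ h2] at h1
        exact ⟨h1, h2⟩
      · rintro ⟨h1, h2⟩
        rw [← key _ h2] at h1
        exact ⟨h1, h2⟩

end Pool.Agent.H53.Gal
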