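import Mathlib
import Pool.Graph.R_pool_sql_team_seeded_620a6dc7.Helper403_SZ.Defs

set_option autoImplicit false

/-!
# The Galvin property and the power of `κ` in the language of forcing

The forcing relation is the one of `Pool.Graph.R_seed8.Helper669.Forcing`: a sentence of the
forcing language of `P` is represented by the set of the conditions which force it, and a name of
a subset of `X` is a map `Y : X → Set P`; the named set is `{x | the generic filter meets Y x}`.
-/

namespace Pool.Agent.H53.Gal

open Cardinal Pool.Agent.Helper669.Forcing

variable {P : Type} [Preorder P]

/-- The Galvin property `Gal(U, μ, θ)` in the extension, for (the name of) a family `U` of subsets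
of `K`: for every family `A` of members of `U` indexed by `θ` there is an injective function `f`
from `μ` to `θ` such that the intersection of the sets `A (f ξ)`, `ξ < μ`, belongs to `U`. -/
def Galvin {K : Type} (U : (K → Set P) → Set P) (μ θ : Cardinal.{0}) : Set P :=
  fall fun A : θ.out → K → Set P =>
    fimp (fall fun i => meets (U (A i)))
      (fex fun f : μ.out → θ.out → Set P => fand (IsFun f) (fand (IsInj f)
        (meets (U fun b => fall fun ξ => fall fun i => fimp (meets (f ξ i)) (meets (A i b))))))

/-- The named subsets `Y` and `Z` of `K` are equal. -/
def EqN {K : Type} (Y Z : K → Set P) : Set P :=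
  fall fun a => fand (fimp (meets (Y a)) (meets (Z a))) (fimp (meets (Z a)) (meets (Y a)))

/-- In the extension there is a map from `μ` onto the power set of `κ`. -/
def PowLe (P : Type) [Preorder P] (κ μ : Cardinal.{0}) : Set P :=
  fex fun E : μ.out → κ.ord.ToType → Set P =>
    fall fun Y : κ.ord.ToType → Set P => fex fun i => EqN (E i) Y

/-- In the extension `2 ^ κ = μ`: there is a map from `μ` onto the power set of `κ`, and there is
none from a smaller cardinal. -/
def PowIs (P : Type) [Preorder P] (κ μ : Cardinal.{0}) : Set P :=
  fand (PowLe P κ μ) (fall fun ν : Cardinal.{0} => fall fun _ : ν < μ => fnot (PowLe P κ ν))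

end Pool.Agent.H53.Gal
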