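import Mathlib
import Pool.Graph.R_pool_sql_team_seeded_620a6dc7.Helper403_SZ.TC5b

set_option autoImplicit false

/-!
# The reflection at one set, with a stronger master condition

This follows `Pool.Graph.R_pool_sql_team_seeded_620a6dc7.Helper403_SZ.TC5b`; the lower bound of
the copied conditions can be chosen in a given set `G`.
-/

namespace Pool.Agent.H53.Gal

open Cardinal Set Pool.Agent.Helper669.Forcing Pool.Agent.Helper669.K Pool.Agent.W873.Tp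
open Pool.Agent.W873.Vi Pool.Agent.Helper403.SZ Pool.Agent.Helper403.SZ.TC5b

variable {κ : Cardinal.{0}} {S : Sys κ}

/-- the reflection at one set -/
theorem local_refl' (hκ : κ.IsInaccessible) (hC2 : StmtC2) {Θ : Type} (N : NOrd S.RR Θ)
    (hN : NClosed κ N) {α : Ik κ} (hα : IsD α) (A : Set Θ) (hne : A.Nonempty) (n : ℕ)
    (hA : #A ≤ plus (2 ^ #(Iio α)) n) (mC : Set (Two N) → Θ)
    (hmC : ∀ D : Set (Two N), #D < κ → ForcedDirected N D → ∀ a ∈ D, a.1 ∈ N.rel (mC D) a.2)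
    (hcl : ∀ D : Set (Two N), #D < #(Iio α) → (∀ t ∈ D, Below α t.1 ∧ t.2 ∈ A) → mC D ∈ A)
    (hcc : ∀ (ι : Type) (f : ι → Two N), #(Iio α) < #ι → (∀ i, Below α (f i).1 ∧ (f i).2 ∈ A) →
      ∃ i j, i ≠ j ∧ ∃ t : Two N, (Below α t.1 ∧ t.2 ∈ A) ∧ t ≤ f i ∧ t ≤ f j)
    (χ : Cardinal.{0}) (hχ0 : ℵ₀ ≤ χ) (hχκ : χ < κ) (hχ : ∀ d, IsD d → α < d → χ < #(Iio d))
    (hQ : #{q : Two N | Below α q.1 ∧ q.2 ∈ A} ≤ χ)
    (J : Type) (hJ : #J ≤ χ) (Δ : J → Set (Two N)) (hΔ : ∀ i, Down (Δ i))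
    (hΔ' : ∀ i q, ∃ q' ≤ q, q' ∈ Δ i) (G : Set Θ)
    (hM : ∀ DM : Set (S.RR × Θ), #DM < κ → ForcedDirected N DM → (∀ a ∈ DM, a.2 ∈ A) →
      ∃ m ∈ G, ∀ a ∈ DM, a.1 ∈ N.rel m a.2) :
    ∃ F : Two N → Two N,
      (∃ m ∈ G, ∀ q, Below α q.1 ∧ q.2 ∈ A → (F q).1 ∈ N.rel (F q).2 m) ∧
      (∀ q, Below α q.1 ∧ q.2 ∈ A → F q ≤ q) ∧
      (∀ q q', Below α q.1 ∧ q.2 ∈ A → Below α q'.1 ∧ q'.2 ∈ A → q' ≤ q → F q' ≤ F q) ∧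
      (∀ j, ∀ q, Below α q.1 ∧ q.2 ∈ A → ∃ q' ≤ q, (Below α q'.1 ∧ q'.2 ∈ A) ∧ F q' ∈ Δ j) ∧
      (∀ q, Below α q.1 ∧ q.2 ∈ A → ∀ w ≤ F q, ∃ s0 ≤ q, (Below α s0.1 ∧ s0.2 ∈ A) ∧
        ∀ s ≤ s0, (Below α s.1 ∧ s.2 ∈ A) → ∃ w' ≤ w, w' ≤ F s) := by
  classical
  have hακ : #(Iio α) < κ := mk_Iio_lt' α
  obtain ⟨b, hb0⟩ : ∃ b : Ik κ, #(Iio b) = #A :=
    exists_mk_Iio (hA.trans_lt (plus_lt hκ (hκ.isStrongLimit.two_power_lt hακ) n))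
  obtain ⟨e⟩ := Cardinal.eq.1 hb0.symm
  have hv := vst_sig (S := S) (N := N) e hα hne hA hb0 hακ.le mC hmC hcl hcc
  obtain ⟨c, hc, hW⟩ := S.surj α hα _ hv
  have hb : ∀ d, IsD d → α < d → b < d := hv.b_lt
  -- the copies
  let F0 : Two N → S.RR := fun q => if h : q.2 ∈ A then iR e hκ hα hc hW hb q h else q.1
  have hF0 : ∀ q (h : q.2 ∈ A), F0 q = iR e hκ hα hc hW hb q h := fun q h => dif_pos h
  -- the master condition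
  let DM : Set (S.RR × Θ) := (fun q : Two N => (F0 q, q.2)) '' {q : Two N | Below α q.1 ∧ q.2 ∈ A}
  have hDM : #DM < κ := (mk_image_le.trans hQ).trans_lt hχκ
  have hfd : ForcedDirected N DM := by
    rintro _ ⟨q1, hq1, rfl⟩ _ ⟨q2, hq2, rfl⟩ u hu1 hu2
    change u ≤ F0 q1 at hu1
    change u ≤ F0 q2 at hu2
    rw [hF0 q1 hq1.2] at hu1
    rw [hF0 q2 hq2.2] at hu2
    obtain ⟨q3, h3, hb3, hle3, heq3⟩ := le_iR e hκ hα hc hW hb u q1 hq1.2 hq1.1 hu1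
    have hle4 : q3 ≤ q2 := by
      refine le_of_iR e hκ hα hc hW hb q2 q3 hq2.2 h3 hq2.1 hb3 ?_
      rw [← heq3, ← Sys.low_eq hκ (iR_low e hκ hα hc hW hb q2 hq2.2)]
      exact Sys.low_mono hκ hu2
    have hu3 : u ≤ iR e hκ hα hc hW hb q3 h3 := by
      rw [← heq3]
      exact Sys.le_low hκ α u
    have hu4 : u ≤ q3.1 := hu3.trans (iR_le e hκ hα hc hW hb q3 h3 hb3)
    refine ⟨u, le_rfl, (F0 q3, q3.2), ⟨q3, ⟨hb3, h3⟩, rfl⟩, ?_, N.down _ _ _ hle3.2 _ hu4,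
      N.down _ _ _ hle4.2 _ hu4⟩
    change u ≤ F0 q3
    rw [hF0 q3 h3]
    exact hu3
  obtain ⟨mX, hmG, hmX⟩ := hM DM hDM hfd (by
    rintro _ ⟨q, hq, rfl⟩
    exact hq.2)
  -- the local forcing
  let AX : Set S.RR := F0 '' {q : Two N | Below α q.1 ∧ q.2 ∈ A}
  have hAX : ∀ a ∈ AX, ∀ a' ≤ a, ∃ q' : Two N, (Below α q'.1 ∧ q'.2 ∈ A) ∧
      S.low hκ α a' = F0 q' ∧ ∀ q, (Below α q.1 ∧ q.2 ∈ A) → a' ≤ F0 q → q' ≤ q := by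
    rintro _ ⟨q, hq, rfl⟩ a' ha'
    rw [hF0 q hq.2] at ha'
    obtain ⟨q', h', hb', hle', heq⟩ := le_iR e hκ hα hc hW hb a' q hq.2 hq.1 ha'
    refine ⟨q', ⟨hb', h'⟩, by rw [heq, hF0 q' h'], fun q1 hq1 hle1 => ?_⟩
    refine le_of_iR e hκ hα hc hW hb q1 q' hq1.2 h' hq1.1 hb' ?_
    rw [hF0 q1 hq1.2] at hle1
    rw [← heq, ← Sys.low_eq hκ (iR_low e hκ hα hc hW hb q1 hq1.2)]
    exact Sys.low_mono hκ hle1
  obtain ⟨x0, hx0⟩ := hne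
  have hq0 : Below α ((S.top hκ, x0) : Two N).1 ∧ ((S.top hκ, x0) : Two N).2 ∈ A :=
    ⟨fun ξ h => by simp [Sys.top] at h, hx0⟩
  have hlow : ∀ a ∈ AX, S.Low α a := by
    rintro _ ⟨q, hq, rfl⟩
    rw [hF0 q hq.2]
    exact iR_low e hκ hα hc hW hb q hq.2
  obtain ⟨g, hg1, hg2⟩ := hC2 κ hκ S Θ N hN α (Order.succ χ)
    (fun d hd h => Order.succ_le_of_lt (hχ d hd h)) (Order.succ_le_of_lt hχκ)
    (hχ0.trans (Order.le_succ _)) AX ⟨_, _, hq0, rfl⟩ hlow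
    (by
      intro a ha a' hle hl
      obtain ⟨q', hq', heq, _⟩ := hAX a ha a' hle
      rw [Sys.low_eq hκ hl] at heq
      exact ⟨q', hq', heq.symm⟩)
    ((mk_image_le.trans hQ).trans_lt (Order.lt_succ _)) J Δ (hJ.trans_lt (Order.lt_succ _))
    hΔ hΔ' ((S.top hκ, mX) : Two N)
  have hmaster : ∀ q, Below α q.1 ∧ q.2 ∈ A → S.catT N α (F0 q) ((S.top hκ, mX) : Two N) ≤ q := by
    intro q hq
    have h1 : F0 q ≤ q.1 := by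
      rw [hF0 q hq.2]
      exact iR_le e hκ hα hc hW hb q hq.2 hq.1
    have h2 : S.cat α (F0 q) (S.top hκ) ≤ F0 q :=
      Sys.cat_le_left (hlow _ ⟨q, hq, rfl⟩) _
    exact ⟨h2.trans h1, N.down _ _ _ (hmX (F0 q, q.2) ⟨q, hq, rfl⟩) _ h2⟩
  have hmono : ∀ q q', Below α q.1 ∧ q.2 ∈ A → Below α q'.1 ∧ q'.2 ∈ A → q' ≤ q →
      F0 q' ≤ F0 q := by
    intro q q' hq hq' hle
    rw [hF0 q hq.2, hF0 q' hq'.2]
    exact iR_mono e hκ hα hc hW hb q q' hq.2 hq'.2 hq'.1 hle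
  refine ⟨fun q => S.catT N α (F0 q) g, ⟨mX, hmG, fun q hq => (hg1 _ ⟨q, hq, rfl⟩).2⟩,
    fun q hq => (hg1 _ ⟨q, hq, rfl⟩).trans (hmaster q hq),
    fun q q' hq hq' hle => Sys.catT_mono_left (hmono q q' hq hq' hle) g, fun j q hq => ?_,
    fun q hq w hw => ?_⟩
  · obtain ⟨_, ⟨q', hq', rfl⟩, hle, hmem⟩ := hg2 j (F0 q) ⟨q, hq, rfl⟩
    obtain ⟨q2, hq2, heq2, hle2⟩ := hAX (F0 q) ⟨q, hq, rfl⟩ (F0 q') hle
    refine ⟨q', ?_, hq', hmem⟩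
    rw [hF0 q hq.2, hF0 q' hq'.2] at hle
    exact le_of_iR e hκ hα hc hW hb q q' hq.2 hq'.2 hq.1 hq'.1 hle
  · have hw1 : w.1 ≤ F0 q := hw.1.trans (Sys.cat_le_left (hlow _ ⟨q, hq, rfl⟩) _)
    obtain ⟨s0, hs0, heq, hle⟩ := hAX (F0 q) ⟨q, hq, rfl⟩ w.1 hw1
    refine ⟨s0, hle q hq hw1, hs0, fun s hs hsA => ?_⟩
    have h1 : F0 s ≤ S.low hκ α w.1 := by
      rw [heq]
      exact hmono s0 s hs0 hsA hs
    exact ⟨S.catT N α (F0 s) w, Sys.catT_le_right hκ h1, Sys.catT_le_catT hκ hw h1⟩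


end Pool.Agent.H53.Gal
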