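import Mathlib
import Pool.Agent.H53.Gal.Basic

set_option autoImplicit false

/-!
# The normal measure given by a reflection
-/

namespace Pool.Agent.H53.Gal

open Cardinal Set Pool.Agent.Helper669.Forcing Pool.Agent.Helper669.K Pool.Agent.W873.Tp
open Pool.Agent.W873.Vi Pool.Agent.Helper403.SZ

/-- the measure given by the conditions `F X q` -/
def theV {P M : Type} [Preorder P] {κ : Cardinal.{0}} (U : Ultrafilter (Set M))
    (α : Set M → Ik κ) (F : Set M → P → P) : (Ik κ → Set P) → Set P := fun Y =>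
  {q | ∀ᶠ X in (U : Filter (Set M)), F X q ∈ meets (Y (α X))}

theorem nmeas {κ : Cardinal.{0}} {P M : Type} [Preorder P]
    {U : Ultrafilter (Set M)} (hU : NormalFine κ M U) {cP : P → M}
    (hcP : Function.Injective cP) {cN : M → Ik κ → Set P} (hcN : Function.Surjective cN)
    {k : Ik κ → M} (hk : Function.Injective k) {α : Set M → Ik κ} {F : Set M → P → P}
    (htr : ∀ᶠ X in (U : Filter (Set M)), ∀ a, k a ∈ X ↔ a < α X)
    (hR : ∀ᶠ X in (U : Filter (Set M)), Refl κ cP cN X (α X) (F X)) :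
    NMeas κ (theV U α F) := by
  classical
  have hα : ∀ a, ∀ᶠ X in (U : Filter (Set M)), a < α X := by
    intro a
    filter_upwards [htr, hU.fine (k a)] with X h1 h2
    exact (h1 a).1 h2
  have hdown : ∀ Y, Down (theV U α F Y) := by
    intro Y q hq q' hle
    change ∀ᶠ X in (U : Filter (Set M)), F X q' ∈ meets (Y (α X))
    filter_upwards [hq, hR, hU.fine (cP q), hU.fine (cP q')] with X h1 h2 h3 h4
    exact down_meets _ _ h1 _ (h2.P2 q q' h3 h4 hle)
  -- closure under maps on conditions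
  have hclos : ∀ G : P → P, ∀ᶠ X in (U : Filter (Set M)), ∀ q, cP q ∈ X → cP (G q) ∈ X := by
    intro G
    have h1 := hU.closed (fun a => if h : ∃ q, cP q = a then cP (G h.choose) else a)
    filter_upwards [h1] with X h2 q hq
    have h3 := h2 _ hq
    have h : ∃ q', cP q' = cP q := ⟨q, rfl⟩
    rw [dif_pos h, hcP h.choose_spec] at h3
    exact h3
  have hdiag : ∀ Q : P → Set M → Prop, (∀ q, ∀ᶠ X in (U : Filter (Set M)), Q q X) →
      ∀ᶠ X in (U : Filter (Set M)), ∀ q, cP q ∈ X → Q q X := by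
    intro Q hQ
    have h1 := hU.diag (Q := fun a X => ∀ q, cP q = a → Q q X) (fun a => by
      by_cases h : ∃ q, cP q = a
      · obtain ⟨q, rfl⟩ := h
        filter_upwards [hQ q] with X h2 q' hq'
        rw [hcP hq']
        exact h2
      · exact Filter.Eventually.of_forall fun X q hq => absurd ⟨q, hq⟩ h)
    filter_upwards [h1] with X h2 q hq
    exact h2 _ hq q rfl
  -- regularity
  have hreg : ∀ Y q, q ∈ meets (theV U α F Y) → q ∈ theV U α F Y := by
    intro Y q hq
    have hex : ∀ s0 : P, ∃ s, s ≤ s0 ∧ (s0 ≤ q → s ∈ theV U α F Y) := by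
      intro s0
      by_cases h : s0 ≤ q
      · obtain ⟨r, hr, s, hs, hle⟩ := hq s0 h
        exact ⟨r, hr, fun _ => hdown Y s hs r hle⟩
      · exact ⟨s0, le_rfl, fun h' => absurd h' h⟩
    choose G hG1 hG2 using hex
    have h1 := hdiag (fun s X => s ∈ theV U α F Y → F X s ∈ meets (Y (α X))) (fun s => by
      by_cases h : s ∈ theV U α F Y
      · have h' : ∀ᶠ X in (U : Filter (Set M)), F X s ∈ meets (Y (α X)) := h
        filter_upwards [h'] with X h2 _
        exact h2
      · exact Filter.Eventually.of_forall fun X h' => absurd h' h)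
    change ∀ᶠ X in (U : Filter (Set M)), F X q ∈ meets (Y (α X))
    filter_upwards [h1, hclos G, hR, hU.fine (cP q)] with X g1 g2 g3 g4
    refine meets_of_dense' fun w hw => ?_
    obtain ⟨s0, hs0, hs0X, h⟩ := g3.P4 q g4 w hw
    obtain ⟨w', hw', hw''⟩ := h (G s0) (hG1 s0) (g2 s0 hs0X)
    exact ⟨w', hw', down_meets _ _ (g1 (G s0) (g2 s0 hs0X) (hG2 s0 hs0)) _ hw''⟩
  -- decisions
  have hdec : ∀ Y q, ∃ q' ≤ q, q' ∈ theV U α F Y ∨ ∀ᶠ X in (U : Filter (Set M)),
      F X q' ∈ fnot (meets (Y (α X))) := by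
    intro Y q
    obtain ⟨i, rfl⟩ := hcN Y
    obtain ⟨a, ha⟩ := hU.const (Q := fun X a => ∃ q', cP q' = a ∧ q' ≤ q ∧
      (F X q' ∈ meets (cN i (α X)) ∨ F X q' ∈ fnot (meets (cN i (α X))))) (by
        filter_upwards [hR, hU.fine i, hU.fine (cP q)] with X g1 g2 g3
        obtain ⟨q', h1, h2, h3⟩ := g1.P3 i g2 q g3
        exact ⟨cP q', h2, q', rfl, h1, h3.1⟩)
    obtain ⟨X0, q', rfl, hle, _⟩ := ha.exists
    refine ⟨q', hle, ?_⟩
    by_cases h : ∀ᶠ X in (U : Filter (Set M)), F X q' ∈ meets (cN i (α X))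
    · exact Or.inl h
    · right
      filter_upwards [ha, Ultrafilter.eventually_not.2 h] with X g1 g2
      obtain ⟨q2, h2, _, h3⟩ := g1
      rw [hcP h2] at h3
      exact h3.resolve_left g2
  refine ⟨hdown, hreg, ?_, ?_, ?_, ?_, ?_, ?_, ?_⟩
  · -- supersets
    intro Y Z q h h'
    change ∀ᶠ X in (U : Filter (Set M)), F X q ∈ meets (Z (α X))
    have h1 : ∀ᶠ X in (U : Filter (Set M)), F X q ∈ meets (Y (α X)) := h
    filter_upwards [h1, hR, hU.fine (cP q)] with X g1 g2 g3
    exact h' (α X) (F X q) (g2.P1 q g3) g1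
  · -- disjointness
    intro Y q h h'
    have h1 : ∀ᶠ X in (U : Filter (Set M)), F X q ∈ meets (Y (α X)) := h
    have h1' : ∀ᶠ X in (U : Filter (Set M)), F X q ∈ meets (nCompl Y (α X)) := h'
    obtain ⟨X, g1, g2⟩ := (h1.and h1').exists
    exact meets_fnot (down_meets _) g2 _ le_rfl g1
  · -- decisions
    intro Y q
    obtain ⟨q', hq', h | h⟩ := hdec Y q
    · exact ⟨q', hq', Or.inl h⟩
    · refine ⟨q', hq', Or.inr ?_⟩
      change ∀ᶠ X in (U : Filter (Set M)), F X q' ∈ meets (nCompl Y (α X))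
      filter_upwards [h] with X g1
      exact meets_of_mem g1
  · -- diagonal intersections
    intro Y q h
    change ∀ᶠ X in (U : Filter (Set M)), F X q ∈ meets {r | ∀ γ < α X, r ∈ meets (Y γ (α X))}
    have h1 := hU.diag (Q := fun a X => ∀ γ, k γ = a → F X q ∈ meets (Y γ (α X))) (fun a => by
      by_cases h' : ∃ γ, k γ = a
      · obtain ⟨γ, rfl⟩ := h'
        have h2 : ∀ᶠ X in (U : Filter (Set M)), F X q ∈ meets (Y γ (α X)) := h γ
        filter_upwards [h2] with X h3 γ' hγ'
        rw [hk hγ']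
        exact h3
      · exact Filter.Eventually.of_forall fun X γ hγ => absurd ⟨γ, hγ⟩ h')
    filter_upwards [h1, htr] with X g1 g2
    exact meets_of_mem fun γ hγ => g1 (k γ) ((g2 γ).2 hγ) γ rfl
  · -- closure points
    intro f q
    change ∀ᶠ X in (U : Filter (Set M)), F X q ∈ meets {_p | ∀ γ < α X, f γ < α X}
    have h1 := hU.closed (fun a => if h : ∃ γ, k γ = a then k (f h.choose) else a)
    filter_upwards [h1, htr] with X g1 g2
    refine meets_of_mem fun γ hγ => ?_
    have h3 := g1 (k γ) ((g2 γ).2 hγ)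
    have h : ∃ γ', k γ' = k γ := ⟨γ, rfl⟩
    rw [dif_pos h, hk h.choose_spec] at h3
    exact (g2 _).1 h3
  · -- final segments
    intro a q
    change ∀ᶠ X in (U : Filter (Set M)), F X q ∈ meets {_p | a < α X}
    filter_upwards [hα a] with X g1
    exact meets_of_mem g1
  · -- completeness
    intro ι Y q hι h
    change ∀ᶠ X in (U : Filter (Set M)), F X q ∈ meets {r | ∀ i, r ∈ meets (Y i (α X))}
    have h1 := hU.complete ι (fun i X => F X q ∈ meets (Y i (α X))) hι h
    filter_upwards [h1] with X g1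
    exact meets_of_mem g1

end Pool.Agent.H53.Gal
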