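import Mathlib
import Pool.Agent.H53.Gal.Local
import Pool.Graph.R_pool_sql_team_seeded_620a6dc7.Helper403_SZ.TC1
import Pool.Graph.R_pool_sql_team_seeded_620a6dc7.Helper403_SZ.TC2
import Pool.Graph.R_pool_sql_team_seeded_620a6dc7.Helper403_SZ.TC3
import Pool.Graph.R_pool_sql_team_seeded_620a6dc7.Helper403_SZ.TC5a

set_option autoImplicit false

/-!
# The reflection of a closed named order, with stronger master conditions

This follows `Pool.Graph.R_pool_sql_team_seeded_620a6dc7.Helper403_SZ.TC5b`.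
-/

namespace Pool.Agent.H53.Gal

open Cardinal Set Pool.Agent.Helper669.Forcing Pool.Agent.Helper669.K Pool.Agent.W873.Tp
open Pool.Agent.W873.Vi Pool.Agent.Helper403.SZ Pool.Agent.Helper403.SZ.TC5b

/-- The reflection of a closed named order, with master conditions in given sets. -/
theorem refl5 (κ : Cardinal.{0}) (hsc : IsSupercompact κ) (hκ : κ.IsInaccessible) (S : Sys κ)
    (Θ : Type) (N : NOrd S.RR Θ) (n : ℕ) (hN : NClosed κ N) (hcc : CC (Two N) κ)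
    (hΘ : #Θ ≤ plus (2 ^ κ) n) (E : Type) (hE : #E ≤ plus (2 ^ κ) n) (sup : Θ → Ik κ)
    (G : E → Ik κ → Set Θ)
    (hG : ∀ (α : Ik κ) (A : Set Θ) (E0 : Set E), (∀ x ∈ A, sup x < α) → #E0 < κ →
      ∀ DM : Set (S.RR × Θ), #DM < κ → ForcedDirected N DM → (∀ a ∈ DM, a.2 ∈ A) →
      ∃ m, (∀ e ∈ E0, m ∈ G e α) ∧ ∀ a ∈ DM, a.1 ∈ N.rel m a.2) :
    ∃ (M : Type) (U : Ultrafilter (Set M)) (_ : NormalFine κ M U) (cP : Two N → M)
    (_ : Function.Injective cP) (cN : M → Ik κ → Set (Two N)) (_ : Function.Surjective cN)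
    (k : Ik κ → M) (_ : Function.Injective k)
    (α : Set M → Ik κ) (F : Set M → Two N → Two N),
    (∀ᶠ X in (U : Filter (Set M)), ∀ a, k a ∈ X ↔ a < α X) ∧
    (∀ᶠ X in (U : Filter (Set M)), Refl κ cP cN X (α X) (F X)) ∧
    ∀ (e : E) (q : Two N), ∀ᶠ X in (U : Filter (Set M)), ∃ m ∈ G e (α X),
      (F X q).1 ∈ N.rel (F X q).2 m := by
  have hC2 := TC2.jobC2 jobC1
  have hC3 := jobC3
  have hC5a := TC5a.jobC5a
  classical
  have hκ0 : ℵ₀ ≤ κ := hκ.1.le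
  obtain ⟨_, hR, _⟩ := hC3 κ hsc hκ S
  -- the cardinalities
  have hκn : κ ≤ plus (2 ^ κ) n := (cantor κ).le.trans (le_plus _ n)
  have hn0 : ℵ₀ ≤ plus (2 ^ κ) n := hκ0.trans hκn
  have hTwo : #(Two N) ≤ plus (2 ^ κ) n := by
    change #(S.RR × Θ) ≤ _
    rw [mk_prod, lift_id, lift_id]
    exact (mul_le_mul' (hR.trans hκn) hΘ).trans (mul_eq_self hn0).le
  let M : Type := (2 ^ plus (2 ^ κ) n : Cardinal.{0}).ord.ToType
  have hM : #M = 2 ^ plus (2 ^ κ) n := mk_ord_toType _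
  have hnM : plus (2 ^ κ) n ≤ #M := by
    rw [hM]
    exact (cantor _).le
  obtain ⟨U, hU⟩ := hsc.2 M
  obtain ⟨k⟩ : #(Ik κ) ≤ #M := by
    rw [mk_ord_toType]
    exact hκn.trans hnM
  obtain ⟨cR⟩ : #S.RR ≤ #M := (hR.trans hκn).trans hnM
  obtain ⟨cT⟩ : #Θ ≤ #M := hΘ.trans hnM
  obtain ⟨cE⟩ : #E ≤ #M := hE.trans hnM
  obtain ⟨cP⟩ : #(Two N) ≤ #M := hTwo.trans hnM
  obtain ⟨mE, _⟩ := hN ∅ (by rw [mk_eq_zero]; exact aleph0_pos.trans_le hκ0)
    (fun a ha => ha.elim)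
  obtain ⟨cN, hcN⟩ : ∃ cN : M → Ik κ → Set (Two N), Function.Surjective cN := by
    refine exists_surj ?_ ⟨fun _ => ∅⟩
    rw [← power_def, mk_set, mk_ord_toType, ← power_mul, hM]
    refine power_le_power_left two_ne_zero ?_
    exact (mul_le_mul' hTwo hκn).trans (mul_eq_self hn0).le
  -- lower bounds
  let mC : Set (Two N) → Θ := fun D =>
    if h : #D < κ ∧ ForcedDirected N D then (hN D h.1 h.2).choose else mE
  have hmC : ∀ D : Set (Two N), #D < κ → ForcedDirected N D → ∀ a ∈ D, a.1 ∈ N.rel (mC D) a.2 := by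
    intro D hD hdir
    have h : mC D = (hN D hD hdir).choose := dif_pos ⟨hD, hdir⟩
    rw [h]
    exact (hN D hD hdir).choose_spec
  obtain ⟨α, h1, h2a, h2, h2b, h3, h4⟩ := hC5a κ hκ M U hU k k.injective
  have hαgt : ∀ a, ∀ᶠ X in (U : Filter (Set M)), a < α X := by
    intro a
    filter_upwards [h1, hU.fine (k a)] with X hX ha
    exact (hX.2 a).1 ha
  have hDunb : ∀ a : Ik κ, ∃ d, IsD d ∧ a < d := by
    intro a
    obtain ⟨X, hX1, hX2⟩ := (h1.and (hαgt a)).exists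
    exact ⟨α X, hX1.1, hX2⟩
  have e2 := h2b Set.univ n (by rw [mk_univ, hM])
  have e10 := refl_cc hU cP cP.injective hcc α h2a
  have e3 := h2 (Set.range cT) n (by
    rw [mk_range_eq _ cT.injective]
    exact hΘ)
  have e4 := h3 (Two N) Θ cP cT cP.injective mC
  have e5 := h4 S.RR cR rho cR.injective (count_rho hκ hDunb)
  -- closure under the coding maps
  let G1 : M → M := fun a => if h : ∃ q : Two N, cP q = a then cR h.choose.1 else a
  let G2 : M → M := fun a => if h : ∃ q : Two N, cP q = a then cT h.choose.2 else a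
  let G3 : M → M → M := fun a b =>
    if h : ∃ q : Two N, cR q.1 = a ∧ cT q.2 = b then cP h.choose else a
  have hG1 : ∀ q, G1 (cP q) = cR q.1 := by
    intro q
    have h : ∃ q' : Two N, cP q' = cP q := ⟨q, rfl⟩
    have h5 : G1 (cP q) = cR h.choose.1 := dif_pos h
    rw [h5, cP.injective h.choose_spec]
  have hG2 : ∀ q, G2 (cP q) = cT q.2 := by
    intro q
    have h : ∃ q' : Two N, cP q' = cP q := ⟨q, rfl⟩
    have h5 : G2 (cP q) = cT h.choose.2 := dif_pos h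
    rw [h5, cP.injective h.choose_spec]
  have hG3 : ∀ q : Two N, G3 (cR q.1) (cT q.2) = cP q := by
    intro q
    have h : ∃ q' : Two N, cR q'.1 = cR q.1 ∧ cT q'.2 = cT q.2 := ⟨q, rfl, rfl⟩
    have h5 : G3 (cR q.1) (cT q.2) = cP h.choose := dif_pos h
    rw [h5]
    congr 1
    exact Prod.ext (cR.injective h.choose_spec.1) (cT.injective h.choose_spec.2)
  let G4 : M → M := fun a => if h : ∃ x, cT x = a then k (sup h.choose) else a
  have hG4 : ∀ x, G4 (cT x) = k (sup x) := by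
    intro x
    have h : ∃ x', cT x' = cT x := ⟨x, rfl⟩
    have h5 : G4 (cT x) = k (sup h.choose) := dif_pos h
    rw [h5, cT.injective h.choose_spec]
  have e11 := hU.closed G4
  have e12 := hU.small
  have e6 := hU.closed G1
  have e7 := hU.closed G2
  have e8 := hU.closed₂ G3
  have e9 := hU.fine (cT mE)
  -- the reflection at good sets
  have key : ∀ X : Set M, ∃ F : Two N → Two N,
      ((IsD (α X) ∧ ∀ a, k a ∈ X ↔ a < α X) →
        #(X ∩ Set.univ : Set M) ≤ 2 ^ plus (2 ^ #(Iio (α X))) n →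
        #(X ∩ Set.range cT : Set M) ≤ plus (2 ^ #(Iio (α X))) n →
        (∀ D : Set (Two N), #D < #(Iio (α X)) → (∀ t ∈ D, cP t ∈ X) → cT (mC D) ∈ X) →
        (∀ t, cR t ∈ X ↔ rho t < α X) → (∀ a ∈ X, G1 a ∈ X) → (∀ a ∈ X, G2 a ∈ X) →
        (∀ a ∈ X, ∀ b ∈ X, G3 a b ∈ X) → cT mE ∈ X →
        (∀ (ι : Type) (f : ι → Two N), #(Iio (α X)) < #ι →
          (∀ i, cP (f i) ∈ X) → ∃ i j, i ≠ j ∧ ∃ t, cP t ∈ X ∧ t ≤ f i ∧ t ≤ f j) →
        (∀ a ∈ X, G4 a ∈ X) → #X < κ →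
        (Refl κ cP cN X (α X) F ∧ ∃ m, (∀ e : E, cE e ∈ X → m ∈ G e (α X)) ∧
          ∀ q, cP q ∈ X → (F q).1 ∈ N.rel (F q).2 m)) := by
    intro X
    by_cases hgood : (IsD (α X) ∧ ∀ a, k a ∈ X ↔ a < α X) ∧
        #(X ∩ Set.univ : Set M) ≤ 2 ^ plus (2 ^ #(Iio (α X))) n ∧
        #(X ∩ Set.range cT : Set M) ≤ plus (2 ^ #(Iio (α X))) n ∧
        (∀ D : Set (Two N), #D < #(Iio (α X)) → (∀ t ∈ D, cP t ∈ X) → cT (mC D) ∈ X) ∧
        (∀ t, cR t ∈ X ↔ rho t < α X) ∧ (∀ a ∈ X, G1 a ∈ X) ∧ (∀ a ∈ X, G2 a ∈ X) ∧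
        (∀ a ∈ X, ∀ b ∈ X, G3 a b ∈ X) ∧ cT mE ∈ X ∧
        (∀ (ι : Type) (f : ι → Two N), #(Iio (α X)) < #ι →
          (∀ i, cP (f i) ∈ X) → ∃ i j, i ≠ j ∧ ∃ t, cP t ∈ X ∧ t ≤ f i ∧ t ≤ f j) ∧
        (∀ a ∈ X, G4 a ∈ X) ∧ #X < κ
    swap
    · exact ⟨id, fun g1 g2 g3 g4 g5 g6 g7 g8 g9 g10 g11 g12 =>
        absurd ⟨g1, g2, g3, g4, g5, g6, g7, g8, g9, g10, g11, g12⟩ hgood⟩
    obtain ⟨g1, g2, g3, g4, g5, g6, g7, g8, g9, g10, g11, g12⟩ := hgood
    have hiff : ∀ q : Two N, cP q ∈ X ↔ Below (α X) q.1 ∧ q.2 ∈ {x : Θ | cT x ∈ X} := by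
      intro q
      rw [below_iff g1.1, ← g5]
      constructor
      · intro hq
        refine ⟨?_, ?_⟩
        · rw [← hG1]
          exact g6 _ hq
        · change cT q.2 ∈ X
          rw [← hG2]
          exact g7 _ hq
      · rintro ⟨hq1, hq2⟩
        rw [← hG3]
        exact g8 _ hq1 _ hq2
    have hA : #{x : Θ | cT x ∈ X} ≤ plus (2 ^ #(Iio (α X))) n := by
      refine le_trans ?_ g3
      exact mk_le_of_injective (f := fun x => (⟨cT x.1, x.2, x.1, rfl⟩ :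
        (X ∩ Set.range cT : Set M))) fun x y hxy => by
          exact Subtype.ext (cT.injective (congrArg Subtype.val hxy))
    have hQ : #{q : Two N | Below (α X) q.1 ∧ q.2 ∈ {x : Θ | cT x ∈ X}} ≤
        2 ^ plus (2 ^ #(Iio (α X))) n := by
      refine le_trans ?_ g2
      exact mk_le_of_injective (f := fun q => (⟨cP q.1, (hiff q.1).2 q.2, trivial⟩ :
        (X ∩ Set.univ : Set M))) fun x y hxy => by
          exact Subtype.ext (cP.injective (congrArg Subtype.val hxy))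
    have hJ : #X ≤ 2 ^ plus (2 ^ #(Iio (α X))) n := by
      rwa [Set.inter_univ] at g2
    have hακ : #(Iio (α X)) < κ := mk_Iio_lt' (α X)
    obtain ⟨F, f0, f1, f2, f3, f4⟩ := local_refl' hκ hC2 N hN g1.1 {x : Θ | cT x ∈ X} ⟨mE, g9⟩ n hA
      mC hmC (fun D hD hDX => g4 D hD fun t ht => (hiff t).2 (hDX t ht))
      (fun ι f hι hf => by
        obtain ⟨i, j, hij, t, ht, hti, htj⟩ := g10 ι f hι fun i => (hiff (f i)).2 (hf i)
        exact ⟨i, j, hij, t, (hiff t).1 ht, hti, htj⟩)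
      (2 ^ plus (2 ^ #(Iio (α X))) n)
      ((g1.1.aleph0_lt.le.trans (cantor _).le).trans ((le_plus _ n).trans (cantor _).le))
      (hκ.isStrongLimit.two_power_lt (plus_lt hκ (hκ.isStrongLimit.two_power_lt hακ) n))
      (fun d hd h => hd.inacc.isStrongLimit.two_power_lt
        (plus_lt hd.inacc (hd.inacc.isStrongLimit.two_power_lt (hd.init _ h)) n)) hQ X hJ
      (fun i => Dec (cN i.1) (α X)) (fun i => down_Dec _ _) (fun i => dense_Dec _ _)
      {m | ∀ e : E, cE e ∈ X → m ∈ G e (α X)} (by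
        intro DM hDM hfd hDA
        refine hG (α X) {x : Θ | cT x ∈ X} {e | cE e ∈ X} ?_ ?_ DM hDM hfd hDA
        · intro x hx
          rw [← g1.2, ← hG4]
          exact g11 _ hx
        · refine lt_of_le_of_lt ?_ g12
          exact mk_le_of_injective (f := fun e : {e : E | cE e ∈ X} => (⟨cE e.1, e.2⟩ : X))
            fun e e' h => by
              exact Subtype.ext (cE.injective (congrArg Subtype.val h)))
    refine ⟨F, fun _ _ _ _ _ _ _ _ _ _ _ _ => ⟨?_, by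
      obtain ⟨m, hm1, hm2⟩ := f0
      exact ⟨m, hm1, fun q hq => hm2 q ((hiff q).1 hq)⟩⟩⟩
    refine ⟨fun q hq => f1 q ((hiff q).1 hq),
      fun q q' hq hq' => f2 q q' ((hiff q).1 hq) ((hiff q').1 hq'), fun i hi q hq => ?_,
      fun q hq w hw => ?_⟩
    · obtain ⟨q', hle, hq', hmem⟩ := f3 ⟨i, hi⟩ q ((hiff q).1 hq)
      exact ⟨q', hle, (hiff q').2 hq', hmem⟩
    · obtain ⟨s0, hle, hs0, h5⟩ := f4 q ((hiff q).1 hq) w hw
      exact ⟨s0, hle, (hiff s0).2 hs0, fun s hs hsX => h5 s hs ((hiff s).1 hsX)⟩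
  choose F hF using key
  have hall : ∀ᶠ X in (U : Filter (Set M)), (Refl κ cP cN X (α X) (F X) ∧
      ∃ m, (∀ e : E, cE e ∈ X → m ∈ G e (α X)) ∧
        ∀ q, cP q ∈ X → (F X q).1 ∈ N.rel (F X q).2 m) := by
    filter_upwards [h1, e2, e3, e4, e5, e6, e7, e8, e9, e10, e11, e12] with
      X g1 g2 g3 g4 g5 g6 g7 g8 g9 g10 g11 g12
    exact hF X g1 g2 g3 g4 g5 g6 g7 g8 g9 g10 g11 g12
  refine ⟨M, U, hU, cP, cP.injective, cN, hcN, k, k.injective, α, F, ?_, ?_, ?_⟩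
  · filter_upwards [h1] with X g1
    exact g1.2
  · filter_upwards [hall] with X g1
    exact g1.1
  · intro e q
    filter_upwards [hall, hU.fine (cE e), hU.fine (cP q)] with X g1 g2 g3
    obtain ⟨m, hm1, hm2⟩ := g1.2
    exact ⟨m, hm1 e g2, hm2 q g3⟩


end Pool.Agent.H53.Gal
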