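import Mathlib
import Pool.Agent.H53.Gal.Cohen
import Pool.Agent.H53.Gal.Meas
import Pool.Agent.H53.Gal.Refl5

set_option autoImplicit false
set_option linter.unusedSectionVars false

/-!
# Master conditions for the Cohen forcing
-/

namespace Pool.Agent.H53.Gal

open Cardinal Set Pool.Agent.Helper669.Forcing Pool.Agent.Helper669.K Pool.Agent.W873.Tp
open Pool.Agent.W873.Vi Pool.Agent.Helper403.SZ Pool.Agent.Helper403.SZ.TB2a

section

variable {κ : Cardinal.{0}} {L R : Type} [LinearOrder L] [WellFoundedLT L] [Preorder R]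

/-- the second coordinates of a condition are bounded -/
theorem exists_sup (hκ : κ.IsRegular) (p : BC κ L R Empty) : ∃ γ : Ik κ,
    (∀ ξ β, (ξ, Sum.inr β) ∈ p.E → β < γ) ∧ ∀ ξ β u, (ξ, (β, u)) ∈ p.s → β < γ := by
  obtain ⟨γ, hγ⟩ := bdd_of_lt hκ
    ({β | ∃ ξ, (ξ, Sum.inr β) ∈ p.E} ∪ (fun x => x.2.1) '' p.s) (by
      refine (mk_union_le _ _).trans_lt (add_lt_of_lt hκ.aleph0_le ?_ (mk_image_le.trans_lt p.hs))
      refine lt_of_le_of_lt ?_ p.hE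
      refine mk_le_of_injective (f := fun β : {β | ∃ ξ, (ξ, Sum.inr β) ∈ p.E} =>
        (⟨(β.2.choose, Sum.inr β.1), β.2.choose_spec⟩ : p.E)) fun β β' h => ?_
      have h1 := congrArg Subtype.val h
      simp only [Prod.mk.injEq, Sum.inr.injEq] at h1
      exact Subtype.ext h1.2)
  exact ⟨γ, fun ξ β h => hγ β (Or.inl ⟨ξ, h⟩), fun ξ β u h => hγ β (Or.inr ⟨_, h, rfl⟩)⟩

/-- the strong master conditions: `α` is put into the row `ra η`, and is kept out of the row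
`rb η` -/
def GG (T : Rows κ L) (η : Kp κ) (α : Ik κ) : Set (BC κ L R Empty) :=
  {m | (∀ t, t ∈ meets (Nm m (T.ra η) α)) ∧ (T.rb η, Sum.inr α) ∈ m.E ∧
    ∀ t, t ∉ meets (Nm m (T.rb η) α)}

/-- `m` with additional elements and promises at `α` -/
def addM (hκ : ℵ₀ ≤ κ) (T : Rows κ L) (E0 : Set (Kp κ)) (hE0 : #E0 < κ) (α : Ik κ) (top : R)
    (m : BC κ L R Empty) : BC κ L R Empty where
  s := m.s ∪ (fun η => (T.ra η, (α, top))) '' E0
  E := m.E ∪ (fun η => (T.rb η, Sum.inr α)) '' E0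
  hs := (mk_union_le _ _).trans_lt (add_lt_of_lt hκ m.hs (mk_image_le.trans_lt hE0))
  hE := (mk_union_le _ _).trans_lt (add_lt_of_lt hκ m.hE (mk_image_le.trans_lt hE0))

theorem exists_master (hκ : κ.IsInaccessible) (hcc : CCS R κ) (T : Rows κ L) (top : R)
    (htop : ∀ r : R, r ≤ top) (sup : BC κ L R Empty → Ik κ)
    (hsup1 : ∀ p ξ β, (ξ, Sum.inr β) ∈ p.E → β < sup p)
    (hsup2 : ∀ p ξ β u, (ξ, (β, u)) ∈ p.s → β < sup p)
    (α : Ik κ) (A : Set (BC κ L R Empty)) (E0 : Set (Kp κ)) (hA : ∀ x ∈ A, sup x < α)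
    (hE0 : #E0 < κ) (DM : Set (R × BC κ L R Empty)) (hDM : #DM < κ)
    (hdir : ForcedDirected (N0 κ L R) DM) (hDA : ∀ a ∈ DM, a.2 ∈ A) :
    ∃ m, (∀ e ∈ E0, m ∈ GG T e α) ∧ ∀ a ∈ DM, a.1 ∈ (N0 κ L R).rel m a.2 := by
  obtain ⟨C, hC⟩ := exists_C hcc
  have hC1 := fun t u => (hC t u).1
  have hC2 := fun t u => (hC t u).2.1
  have hC3 := fun t u => (hC t u).2.2
  have hreg := hκ.isRegular
  have hκ0 := hκ.1.le
  have h0 : ∀ a ∈ DM, a.1 ∈ (N0 κ L R).rel (mix hreg C hC1 DM hDM) a.2 := by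
    intro a ha
    refine ⟨fun x hx => ?_, fun ζ β t ht => ?_⟩
    · exact (mem_mix_E hreg hC1 hDM).2 ⟨a, ha, hx⟩
    · exact step hreg hC1 hDM goodW0 hC2 hC3 hdir ζ
        (claim hreg hC1 hDM goodW0 hC2 hC3 hdir ζ) a ha β t ht
  have hE : ∀ ξ β, (ξ, Sum.inr β) ∈ (mix hreg C hC1 DM hDM).E → β < α := by
    intro ξ β h
    obtain ⟨a, ha, h1⟩ := (mem_mix_E hreg hC1 hDM).1 h
    exact (hsup1 _ _ _ h1).trans (hA _ (hDA a ha))
  have hs : ∀ ξ β u, (ξ, (β, u)) ∈ (mix hreg C hC1 DM hDM).s → β < α := by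
    intro ξ β u h
    obtain ⟨a, ha, u', h1, _⟩ := (mem_mix_s hreg hC1 hDM).1 h
    exact (hsup2 _ _ _ _ h1).trans (hA _ (hDA a ha))
  refine ⟨addM hκ0 T E0 hE0 α top (mix hreg C hC1 DM hDM), fun η hη => ⟨fun t => ?_, ?_, ?_⟩,
    fun a ha => ?_⟩
  · exact meets_of_le (s := top) (Or.inr ⟨η, hη, rfl⟩) (htop t)
  · exact Or.inr ⟨η, hη, rfl⟩
  · intro t ht
    obtain ⟨_, _, u, hu, _⟩ := ht t le_rfl
    rcases hu with hu | ⟨η', _, hu⟩
    · exact lt_irrefl _ (hs _ _ _ hu)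
    · simp only [Prod.mk.injEq] at hu
      have h1 := congrArg T.lev hu.1
      rw [T.lev_ra, T.lev_rb] at h1
      rw [h1] at hu
      exact T.ne _ hu.1
  · refine (N0 κ L R).trans _ _ _ _ ?_ (h0 a ha)
    refine rel0_iff.2 ⟨fun x hx => Or.inl hx, fun ξ β t _ => ⟨fun h => ?_, fun h1 h2 h3 => ?_⟩⟩
    · exact Pool.Agent.H53.Gal.meets_mono (N := Nm _ ξ β) (fun u hu => Or.inl hu) h
    · refine h3 t le_rfl (Pool.Agent.H53.Gal.meets_mono (N' := Nm _ ξ β) (fun u hu => ?_) h2)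
      rcases hu with hu | ⟨η', _, hu⟩
      · exact hu
      · simp only [Prod.mk.injEq] at hu
        exact absurd (hE ξ β h1) (by rw [hu.2.1]; exact lt_irrefl _)

theorem meets_row {T : Rows κ L} {η : Kp κ} {α : Ik κ} {m : BC κ L R Empty} (hm : m ∈ GG T η α)
    {w : Q0 κ L R} (hw : w.1 ∈ (N0 κ L R).rel w.2 m) :
    w ∈ meets (row (T.ra η) α) := by
  intro w' hw'
  have h1 : w'.1 ∈ (N0 κ L R).rel w'.2 m :=
    (N0 κ L R).trans _ _ _ _ hw'.2 ((N0 κ L R).down _ _ _ hw _ hw'.1)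
  obtain ⟨r, hr, u, hu, hru⟩ := (((rel0_iff.1 h1).2 (T.ra η) α w'.1 le_rfl).1 (hm.1 _)) w'.1 le_rfl
  exact ⟨(r, w'.2), ⟨hr, (N0 κ L R).refl _ _⟩, (r, w'.2), ⟨u, hu, hru⟩, le_rfl⟩

theorem fnot_row {T : Rows κ L} {η : Kp κ} {α : Ik κ} {m : BC κ L R Empty} (hm : m ∈ GG T η α)
    {w : Q0 κ L R} (hw : w.1 ∈ (N0 κ L R).rel w.2 m) :
    w ∈ fnot (meets (row (T.rb η) α)) := by
  intro w' hw' h
  obtain ⟨v, hv, s, ⟨u, hu1, hu2⟩, hvs⟩ := h w' le_rfl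
  have h1 : v.1 ∈ (N0 κ L R).rel v.2 m := by
    have h2 := hv.trans hw'
    exact (N0 κ L R).trans _ _ _ _ h2.2 ((N0 κ L R).down _ _ _ hw _ h2.1)
  have h3 : v.1 ∈ meets (Nm v.2 (T.rb η) α) :=
    ((rel0_iff.1 hvs.2).2 (T.rb η) α v.1 le_rfl).1 (meets_of_le (s := u) hu1 (hvs.1.trans hu2))
  exact ((rel0_iff.1 h1).2 (T.rb η) α v.1 le_rfl).2 hm.2.1 h3 fun t _ ht => hm.2.2 t ht

end

/-- the measure -/
theorem exists_V {κ : Cardinal.{0}} (hsc : IsSupercompact κ) (S : Sys κ) {L : Type}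
    [LinearOrder L] [WellFoundedLT L] (T : Rows κ L)
    (hΘ : #(BC κ L S.RR Empty) ≤ plus (2 ^ κ) 1) :
    ∃ V : (Ik κ → Set (Q0 κ L S.RR)) → Set (Q0 κ L S.RR), NMeas κ V ∧
      (∀ η q, q ∈ V (row (T.ra η))) ∧ ∀ η q, q ∉ V (row (T.rb η)) := by
  have hκ : κ.IsInaccessible := inacc hsc
  obtain ⟨_, hR, hccs⟩ := jobC3 κ hsc hκ S
  have hN : NClosed κ (N0 κ L S.RR) := fun D hD hdir => by
    obtain ⟨m, hm, _⟩ := jobB2a κ L S.RR Empty hκ hccs W0 goodW0 D hD hdir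
    exact ⟨m, hm⟩
  have hcc : CC (Q0 κ L S.RR) κ := jobB2b κ L S.RR Empty hκ hR W0 goodW0
  choose sup hsup1 hsup2 using fun p : BC κ L S.RR Empty => exists_sup hκ.isRegular p
  obtain ⟨M, U, hU, cP, hcP, cN, hcN, k, hk, α, F, htr, hrefl, hm⟩ :=
    refl5 κ hsc hκ S _ (N0 κ L S.RR) 1 hN hcc hΘ (Kp κ) (by
      rw [mk_ord_toType]
      exact (Order.succ_le_of_lt (cantor κ)).trans (Order.le_succ _)) sup
      (GG T) (exists_master hκ hccs T (S.top hκ) (S.le_top hκ) sup hsup1 hsup2)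
  refine ⟨theV U α F, nmeas hU hcP hcN hk htr hrefl, fun η q => ?_, fun η q hq => ?_⟩
  · change ∀ᶠ X in (U : Filter (Set M)), F X q ∈ meets (row (T.ra η) (α X))
    filter_upwards [hm η q] with X h1
    obtain ⟨m, hm1, hm2⟩ := h1
    exact meets_row hm1 hm2
  · have hq' : ∀ᶠ X in (U : Filter (Set M)), F X q ∈ meets (row (T.rb η) (α X)) := hq
    obtain ⟨X, ⟨m, hm1, hm2⟩, h1⟩ := ((hm η q).and hq').exists
    exact fnot_row hm1 hm2 _ le_rfl h1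

end Pool.Agent.H53.Gal
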