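import Mathlib
import Pool.Agent.H53.Gal.Basic
import Pool.Graph.R_seed8.Helper669.KDelta

set_option autoImplicit false

/-!
# A pigeonhole argument in the extension
-/

namespace Pool.Agent.H53.Gal

open Cardinal Set Pool.Agent.Helper669 Pool.Agent.Helper669.Forcing Pool.Agent.Helper669.K Pool.Agent.W873.Tp
open Pool.Agent.W873.Vi Pool.Agent.Helper403.SZ

variable {P : Type} [Preorder P] {κ : Cardinal.{0}}

/-- the conditions which force that `Y` and `Z` agree below `d` -/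
def SameB (Y Z : Ik κ → Set P) (d : Ik κ) : Set P :=
  {r | ∀ β < d, ∀ s ≤ r, s ∈ meets (Y β) ↔ s ∈ meets (Z β)}

theorem down_SameB (Y Z : Ik κ → Set P) (d : Ik κ) : Down (SameB Y Z d) :=
  fun _ hr _ ht β hβ s hs => hr β hβ s (hs.trans ht)

theorem small_antichain (hcc : CC P κ) {M : Set P}
    (hM : M.Pairwise fun a b => ¬ ∃ r, r ≤ a ∧ r ≤ b) : #M ≤ κ := by
  by_contra hlt
  push Not at hlt
  obtain ⟨i, j, hij, h⟩ := hcc M (fun m => (m : P)) hlt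
  exact hM i.2 j.2 (fun h => hij (Subtype.ext h)) h

/-- `κ` many types of bounded sets -/
theorem exists_types (hκ : ℵ₀ ≤ κ) (hcc : CC P κ) (hpow : PowSmall κ P) (d : Ik κ) (hd : IsD d) :
    ∃ (C : Type) (Ty : C → (Ik κ → Set P) → Set P), #C ≤ κ ∧ (∀ z Y, Down (Ty z Y)) ∧
      (∀ Y r, ∃ r' ≤ r, ∃ z, r' ∈ Ty z Y) ∧
      ∀ z Y Y' r, r ∈ Ty z Y → r ∈ Ty z Y' → r ∈ SameB Y Y' d := by
  obtain ⟨M, hM1, hM2, hM3⟩ := h400_antichain {q' : P | ∃ F : Ik κ → Ik κ → Set P,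
    ∀ Y : Ik κ → Set P, ∀ q1 ≤ q', ∃ q2 ≤ q1, ∃ c, q2 ∈ SameB Y (F c) d}
  choose F hF using fun m : M => hM1 m.2
  refine ⟨M × Ik κ, fun z Y => {r | r ≤ z.1.1 ∧ r ∈ SameB Y (F z.1 z.2) d}, ?_, ?_, ?_, ?_⟩
  · rw [mk_prod, lift_id, lift_id, mk_ord_toType]
    exact (mul_le_mul' (small_antichain hcc hM2) le_rfl).trans (mul_eq_self hκ).le
  · rintro z Y r ⟨h1, h2⟩ s hs
    exact ⟨hs.trans h1, down_SameB _ _ _ _ h2 _ hs⟩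
  · intro Y r
    obtain ⟨q', hq', n, G, hG⟩ := hpow d hd r
    obtain ⟨m, hm, s, hs1, hs2⟩ := hM3 q' ⟨G, fun Y q1 h1 => by
      obtain ⟨q2, h2, c, _, h3⟩ := hG Y q1 h1
      exact ⟨q2, h2, c, fun β hβ s hs => h3 β hβ s hs⟩⟩
    obtain ⟨q2, h2, c, h3⟩ := hF ⟨m, hm⟩ Y s hs2
    exact ⟨q2, h2.trans (hs1.trans hq'), (⟨m, hm⟩, c), h2.trans hs2, h3⟩
  · rintro z Y Y' r ⟨_, h1⟩ ⟨_, h2⟩ β hβ s hs
    exact (h1 β hβ s hs).trans (h2 β hβ s hs).symm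

/-- there is an index all of whose types are large -/
theorem exists_star (hκ : ℵ₀ ≤ κ) (hcc : CC P κ) {I S : Type} (hI : κ < #I) (hS : #S ≤ κ)
    {C : S → Type} (hC : ∀ d, #(C d) ≤ κ) (τ : ∀ d, C d → I → Set P)
    (hτ : ∀ d z i, Down (τ d z i)) (hd : ∀ d i r, ∃ r' ≤ r, ∃ z, r' ∈ τ d z i) :
    ∃ i0, ∀ d, ∀ B : Set I, #B ≤ κ → ∀ r, ∃ r' ≤ r, ∃ i, i ∉ B ∧
      ∃ z, r' ∈ τ d z i0 ∧ r' ∈ τ d z i := by
  choose M hM1 hM2 hM3 using fun (d : S) (z : C d) =>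
    h400_antichain {r : P | ∃ B : Set I, #B ≤ κ ∧ ∀ i, i ∉ B → r ∈ fnot (τ d z i)}
  choose B hB1 hB2 using fun (d : S) (z : C d) (m : M d z) => hM1 d z m.2
  have hsm : #(⋃ d, ⋃ z, ⋃ m, B d z m : Set I) ≤ κ :=
    KDelta.small_iUnion hκ hS _ fun d => KDelta.small_iUnion hκ (hC d) _ fun z =>
      KDelta.small_iUnion hκ (small_antichain hcc (hM2 d z)) _ fun m => hB1 d z m
  obtain ⟨i0, hi0⟩ : ∃ i0, i0 ∉ (⋃ d, ⋃ z, ⋃ m, B d z m : Set I) := by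
    by_contra hcon
    push Not at hcon
    rw [Set.eq_univ_of_forall hcon, mk_univ] at hsm
    exact absurd hI (not_lt.2 hsm)
  refine ⟨i0, fun d B0 hB0 r => ?_⟩
  obtain ⟨r1, hr1, z, hz⟩ := hd d i0 r
  by_cases hbad : r1 ∈ {r : P | ∃ B : Set I, #B ≤ κ ∧ ∀ i, i ∉ B → r ∈ fnot (τ d z i)}
  · exfalso
    obtain ⟨m, hm, s, hs1, hs2⟩ := hM3 d z r1 hbad
    have h1 : i0 ∉ B d z ⟨m, hm⟩ := fun h => hi0 (by
      simp only [Set.mem_iUnion]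
      exact ⟨d, z, ⟨m, hm⟩, h⟩)
    exact hB2 d z ⟨m, hm⟩ i0 h1 s hs2 (hτ d z i0 _ hz _ hs1)
  · simp only [Set.mem_ofPred_eq, not_exists, not_and, not_forall] at hbad
    obtain ⟨i, hi, h1⟩ := hbad B0 hB0
    rcases exists_or (τ d z i) r1 with ⟨r2, hr2, h2⟩ | h2
    · exact ⟨r2, hr2.trans hr1, i, hi, z, hτ d z i0 _ hz _ hr2, h2⟩
    · exact absurd h2 h1

/-- a name of an injective function choosing indices of the same type as `i0` -/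
theorem exists_choice (hκ : κ.IsRegular) (hcc : CC P κ) {I : Type}
    {C : Ik κ → Type} (τ : ∀ d, C d → I → Set P)
    (hτ : ∀ d z i, Down (τ d z i)) (i0 : I)
    (hi0 : ∀ d, ∀ B : Set I, #B ≤ κ → ∀ r, ∃ r' ≤ r, ∃ i, i ∉ B ∧
      ∃ z, r' ∈ τ d z i0 ∧ r' ∈ τ d z i) :
    ∃ f : Ik κ → I → Set P, (∀ γ i, Down (f γ i)) ∧ (∀ γ q, ∃ r ≤ q, ∃ i, r ∈ f γ i) ∧
      (∀ γ i i' p, p ∈ f γ i → p ∈ f γ i' → i = i') ∧
      (∀ γ γ' i p, p ∈ f γ i → p ∈ f γ' i → γ = γ') ∧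
      ∀ γ i p, p ∈ f γ i → ∃ z, p ∈ τ γ z i0 ∧ p ∈ τ γ z i := by
  classical
  have hκ0 := hκ.aleph0_le
  obtain ⟨b, hb⟩ := KDelta.rec_choice (ι := Ik κ) (β := Set (P × I)) (r := (· < ·))
    wellFounded_lt
    (fun γ g b => #b ≤ κ ∧ (∀ x ∈ b, ∀ δ < γ, ∀ y ∈ g δ, x.2 ≠ y.2) ∧
      (∀ x ∈ b, ∀ y ∈ b, (∃ r, r ≤ x.1 ∧ r ≤ y.1) → x = y) ∧
      (∀ x ∈ b, ∃ z, x.1 ∈ τ γ z i0 ∧ x.1 ∈ τ γ z x.2) ∧
      ∀ q, ∃ x ∈ b, ∃ r, r ≤ q ∧ r ≤ x.1)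
    (by
      rintro γ g g' b hgg ⟨h1, h2, h3⟩
      refine ⟨h1, fun x hx δ hδ y hy => h2 x hx δ hδ y ?_, h3⟩
      rw [hgg δ hδ]
      exact hy)
    (by
      intro γ g hg
      let B : Set I := ⋃ δ ∈ Iio γ, Prod.snd '' g δ
      have hB : #B ≤ κ := by
        refine KDelta.small_biUnion hκ0 _ ?_ _ fun δ hδ => ?_
        · exact (mk_Iio_toType_ord_lt γ).le
        · exact mk_image_le.trans (hg δ hδ).1
      obtain ⟨M, hM1, hM2, hM3⟩ := h400_antichain {p : P | ∃ i, i ∉ B ∧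
        ∃ z, p ∈ τ γ z i0 ∧ p ∈ τ γ z i}
      choose j hj1 hj2 using fun m : M => hM1 m.2
      refine ⟨Set.range fun m : M => (m.1, j m), ?_, ?_, ?_, ?_, ?_⟩
      · exact mk_range_le.trans (small_antichain hcc hM2)
      · rintro _ ⟨m, rfl⟩ δ hδ y hy heq
        refine hj1 m ?_
        simp only [B, Set.mem_iUnion]
        exact ⟨δ, hδ, y, hy, heq.symm⟩
      · rintro _ ⟨m, rfl⟩ _ ⟨m', rfl⟩ h
        have : m = m' := by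
          by_contra hne
          exact hM2 m.2 m'.2 (fun h => hne (Subtype.ext h)) h
        rw [this]
      · rintro _ ⟨m, rfl⟩
        exact hj2 m
      · intro q
        obtain ⟨r, hr, i, hi, z, hz⟩ := hi0 γ B hB q
        obtain ⟨m, hm, s, hs1, hs2⟩ := hM3 r ⟨i, hi, z, hz⟩
        exact ⟨_, ⟨⟨m, hm⟩, rfl⟩, s, hs1.trans hr, hs2⟩)
  refine ⟨fun γ i => {p | ∃ x ∈ b γ, x.2 = i ∧ p ≤ x.1}, ?_, ?_, ?_, ?_, ?_⟩
  · rintro γ i p ⟨x, hx, h1, h2⟩ q hq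
    exact ⟨x, hx, h1, hq.trans h2⟩
  · intro γ q
    obtain ⟨x, hx, r, hr1, hr2⟩ := (hb γ).2.2.2.2 q
    exact ⟨r, hr1, x.2, x, hx, rfl, hr2⟩
  · rintro γ i i' p ⟨x, hx, rfl, h2⟩ ⟨x', hx', rfl, h2'⟩
    rw [(hb γ).2.2.1 x hx x' hx' ⟨p, h2, h2'⟩]
  · rintro γ γ' i p ⟨x, hx, h1, h2⟩ ⟨x', hx', h1', h2'⟩
    rcases lt_trichotomy γ γ' with h | h | h
    · exact absurd (h1'.trans h1.symm) ((hb γ').2.1 x' hx' γ h x hx)
    · exact h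
    · exact absurd (h1.trans h1'.symm) ((hb γ).2.1 x hx γ' h x' hx')
  · rintro γ i p ⟨x, hx, rfl, h2⟩
    obtain ⟨z, hz1, hz2⟩ := (hb γ).2.2.2.1 x hx
    exact ⟨z, hτ _ _ _ _ hz1 _ h2, hτ _ _ _ _ hz2 _ h2⟩

end Pool.Agent.H53.Gal
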