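import Mathlib
import Pool.Agent.H53.Gal.Defs
import Pool.Agent.H53.Gal.Cohen
import Pool.Agent.H53.Gal.Pigeon
import Pool.Graph.R_seed8.Helper669.KFinal
import Pool.Graph.R_pool_sql_team_seeded_620a6dc7.Helper403_SZ.PlusPow

set_option autoImplicit false
set_option linter.unusedSectionVars false

/-!
# The power of `κ` in the extension
-/

namespace Pool.Agent.H53.Gal

open Cardinal Set Pool.Agent.Helper669.Forcing Pool.Agent.Helper669.K Pool.Agent.W873.Tp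
open Pool.Agent.W873.Vi Pool.Agent.Helper403.SZ

section

variable {P : Type} [Preorder P] {κ : Cardinal.{0}}

theorem down_EqN {K : Type} (Y Z : K → Set P) : Down (EqN Y Z) :=
  down_fall fun _ => down_fand (down_fimp _ _) (down_fimp _ _)

theorem EqN_iff {K : Type} {Y Z : K → Set P} {q : P} (h : q ∈ EqN Y Z) (a : K) {r : P}
    (hr : r ≤ q) : r ∈ meets (Y a) ↔ r ∈ meets (Z a) := by
  constructor
  · intro h1
    exact meets_of_dense' fun s hs => mem_fimp.1 (h a).1 s (hs.trans hr) (down_meets _ _ h1 _ hs)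
  · intro h1
    exact meets_of_dense' fun s hs => mem_fimp.1 (h a).2 s (hs.trans hr) (down_meets _ _ h1 _ hs)

theorem powLe (hcc : CC P κ) (μ : Cardinal.{0}) (hμ : μ ^ κ = μ) (hμκ : ℵ₀ ≤ μ)
    (hP : #P ≤ μ) (q : P) : q ∈ PowLe P κ μ := by
  -- the nice names
  let S : Type := {A : Set P // #A ≤ κ}
  have hS : #S ≤ μ := by
    refine (mk_bounded_set_le P κ).trans ?_
    exact (power_le_power_right (max_le hP hμκ)).trans hμ.le
  have hN : #(κ.ord.ToType → S) ≤ #μ.out := by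
    rw [← power_def, mk_ord_toType, mk_out]
    exact (power_le_power_right hS).trans hμ.le
  have hne : Nonempty (κ.ord.ToType → S) := ⟨fun _ => ⟨∅, by rw [mk_eq_zero]; exact zero_le⟩⟩
  obtain ⟨g, hg⟩ : ∃ g : μ.out → (κ.ord.ToType → S), Function.Surjective g := by
    obtain ⟨e⟩ := hN
    exact ⟨Function.invFun e, Function.invFun_surjective e.injective⟩
  refine mem_fex_of_mem (fun i β => (g i β).1) ?_ ?_
  · exact down_fall fun _ => down_fex _
  · intro Y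
    choose N hN1 hN2 using fun β => exists_nice (κ := κ) hcc (Y β)
    obtain ⟨i, hi⟩ := hg fun β => ⟨N β, hN1 β⟩
    refine mem_fex_of_mem i (down_EqN _ _) fun β => ?_
    have h1 : ∀ r, r ∈ meets ((g i β).1) ↔ r ∈ meets (Y β) := by
      intro r
      rw [hi]
      exact hN2 β r
    exact ⟨mem_fimp.2 fun r _ h => ⟨r, le_rfl, (h1 r).1 h⟩,
      mem_fimp.2 fun r _ h => ⟨r, le_rfl, (h1 r).2 h⟩⟩

theorem not_powLe (hκ : ℵ₀ ≤ κ) (hcc : CC P κ) {Λ : Type} (X : Λ → Ik κ → Set P)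
    (hX : Distinct X) (ν : Cardinal.{0}) (hν : ν ≤ 2 ^ κ) (hΛ : 2 ^ κ < #Λ) (q : P) :
    q ∈ fnot (PowLe P κ ν) := by
  intro q1 _ hq1
  obtain ⟨r, _, E, hE⟩ := mem_fex.1 hq1 q1 le_rfl
  choose s hs i hi using fun ξ : Λ => mem_fex.1 (hE (X ξ)) r le_rfl
  obtain ⟨i0, hi0⟩ := exists_fiber (ι := Λ) (Y := ν.out) (κ := 2 ^ κ)
    (hκ.trans (cantor κ).le) hΛ (by rwa [mk_out]) i
  obtain ⟨ξ, ξ', hne, t, ht, ht'⟩ := hcc {ξ | i ξ = i0} (fun ξ => s ξ.1)
    ((cantor κ).trans hi0)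
  have h1 : ∀ a, ∀ u ≤ t, u ∈ meets (X ξ.1 a) ↔ u ∈ meets (X ξ'.1 a) := by
    intro a u hu
    rw [← EqN_iff (hi ξ.1) a (hu.trans ht), ← EqN_iff (hi ξ'.1) a (hu.trans ht')]
    rw [show i ξ.1 = i0 from ξ.2, show i ξ'.1 = i0 from ξ'.2]
  obtain ⟨u, hu, β, h2 | h2⟩ := hX ξ.1 ξ'.1 (fun h => hne (Subtype.ext h)) t
  · exact h2.2 u le_rfl ((h1 β u hu).1 h2.1)
  · exact h2.2 u le_rfl ((h1 β u hu).2 h2.1)

end

section

variable {κ : Cardinal.{0}} {L R : Type} [LinearOrder L] [Preorder R]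

/-- `m` with one more element and one more promise -/
def addD (hκ : ℵ₀ ≤ κ) (ξ ξ' : L) (β : Ik κ) (top : R) (m : BC κ L R Empty) : BC κ L R Empty where
  s := insert (ξ, (β, top)) m.s
  E := insert (ξ', Sum.inr β) m.E
  hs := mk_insert_le.trans_lt (add_lt_of_lt hκ m.hs (one_lt_aleph0.trans_le hκ))
  hE := mk_insert_le.trans_lt (add_lt_of_lt hκ m.hE (one_lt_aleph0.trans_le hκ))

/-- the rows are different -/
theorem distinct_row (hκ : κ.IsRegular) (top : R) (htop : ∀ r : R, r ≤ top)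
    (hsup : ∀ p : BC κ L R Empty, ∃ γ : Ik κ,
    (∀ ξ β, (ξ, Sum.inr β) ∈ p.E → β < γ) ∧ ∀ ξ β u, (ξ, (β, u)) ∈ p.s → β < γ) :
    Distinct (P := Q0 κ L R) (fun ξ : L => row ξ) := by
  have hκ0 := hκ.aleph0_le
  intro ξ ξ' hne q
  obtain ⟨γ, h1, h2⟩ := hsup q.2
  refine ⟨(q.1, addD hκ0 ξ ξ' γ top q.2), ⟨le_rfl, ?_⟩, γ, Or.inl ⟨?_, ?_⟩⟩
  · refine rel0_iff.2 ⟨fun x hx => Or.inr hx, fun ζ β t _ => ⟨fun h => ?_, fun h3 h4 h5 => ?_⟩⟩
    · exact Pool.Agent.H53.Gal.meets_mono (N := Nm _ ζ β) (fun u hu => Or.inr hu) h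
    · refine h5 t le_rfl (Pool.Agent.H53.Gal.meets_mono (N' := Nm _ ζ β) (fun u hu => ?_) h4)
      rcases hu with hu | hu
      · simp only [Prod.mk.injEq] at hu
        exact absurd (h1 ζ β h3) (by rw [hu.2.1]; exact lt_irrefl _)
      · exact hu
  · exact meets_of_mem ⟨top, Or.inl rfl, htop _⟩
  · intro w hw h
    obtain ⟨v, hv, s, ⟨u, hu1, hu2⟩, hvs⟩ := h w le_rfl
    have h3 : v.1 ∈ meets (Nm v.2 ξ' γ) :=
      ((rel0_iff.1 hvs.2).2 ξ' γ v.1 le_rfl).1 (meets_of_le (s := u) hu1 (hvs.1.trans hu2))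
    have h4 := (rel0_iff.1 (hv.trans hw).2).2 ξ' γ v.1 le_rfl
    refine h4.2 (Or.inl rfl) h3 fun t _ ht => ?_
    obtain ⟨_, _, u', hu', _⟩ := ht t le_rfl
    rcases hu' with hu' | hu'
    · simp only [Prod.mk.injEq] at hu'
      exact hne hu'.1.symm
    · exact lt_irrefl _ (h2 _ _ _ hu')

/-- the number of conditions -/
theorem card_BC (hκ : ℵ₀ ≤ κ) (n : ℕ) (hL : #L ≤ plus (2 ^ κ) n) (hR : #R ≤ κ) :
    #(BC κ L R Empty) ≤ plus (2 ^ κ) n := by
  have hκn : κ ≤ plus (2 ^ κ) n := (cantor κ).le.trans (le_plus0 _ n)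
  have hn0 : ℵ₀ ≤ plus (2 ^ κ) n := hκ.trans hκn
  have hbd : ∀ α : Type, #α ≤ plus (2 ^ κ) n → #{t : Set α // #t ≤ κ} ≤ plus (2 ^ κ) n := by
    intro α hα
    refine (mk_bounded_set_le α κ).trans ?_
    exact (power_le_power_right (max_le hα hn0)).trans (plus_pow hκ n).le
  have h1 : #(L × (κ.ord.ToType × R)) ≤ plus (2 ^ κ) n := by
    rw [← mul_def, ← mul_def, mk_ord_toType]
    refine (mul_le_mul' hL ((mul_le_mul' le_rfl hR).trans (mul_eq_self hκ).le)).trans ?_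
    exact (mul_le_mul' le_rfl hκn).trans (mul_eq_self hn0).le
  have h2 : #(L × (Empty ⊕ κ.ord.ToType)) ≤ plus (2 ^ κ) n := by
    rw [← mul_def, ← add_def, mk_ord_toType, mk_empty, zero_add]
    exact (mul_le_mul' hL hκn).trans (mul_eq_self hn0).le
  have hinj : Function.Injective (fun c : BC κ L R Empty =>
      ((⟨c.s, c.hs.le⟩, ⟨c.E, c.hE.le⟩) : {t : Set (L × (κ.ord.ToType × R)) // #t ≤ κ} ×
        {t : Set (L × (Empty ⊕ κ.ord.ToType)) // #t ≤ κ})) := by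
    intro a b hab
    simp only [Prod.mk.injEq, Subtype.mk.injEq] at hab
    exact Cond.ext hab.1 hab.2
  refine (mk_le_of_injective hinj).trans ?_
  rw [← mul_def]
  exact (mul_le_mul' (hbd _ h1) (hbd _ h2)).trans (mul_eq_self hn0).le

end

end Pool.Agent.H53.Gal
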