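import Mathlib
import Pool.Agent.H53.Gal.Defs
import Pool.Agent.H53.Gal.Frame

set_option autoImplicit false

/-!
# The ultrafilter
-/

namespace Pool.Agent.H53.Gal

open Cardinal Set Pool.Agent.Helper669.Forcing Pool.Agent.Helper669.K Pool.Agent.W873.Tp
open Pool.Agent.W873.Vi Pool.Agent.Helper403.SZ

theorem fimp_meets {P : Type} [Preorder P] {φ N : Set P} (hφ : Down φ) {q : P}
    (h : q ∈ fimp φ (meets N)) (hq : q ∈ φ) : q ∈ meets N :=
  meets_of_dense' fun r hr => mem_fimp.1 h r hr (hφ _ hq _ hr)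

namespace NMeas

variable {P : Type} [Preorder P] {κ : Cardinal.{0}} {V : (Ik κ → Set P) → Set P}

theorem mono_clos (h : NMeas κ V) (hκ : ℵ₀ < κ) (f : Ik κ → Ik κ) {Y Z : Ik κ → Set P} {q : P}
    (hY : q ∈ V Y) (hYZ : ∀ a, (∀ γ < a, f γ < a) → ∀ r ≤ q, r ∈ meets (Y a) → r ∈ meets (Z a)) :
    q ∈ V Z := by
  refine h.mono _ _ _ (h.inter2 hκ hY (h.clos f q)) fun a r hr hm => ?_
  obtain ⟨_, _, s, hs, _⟩ := hm r le_rfl
  obtain ⟨_, _, s', hs', _⟩ := hs.2 s le_rfl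
  refine hYZ a hs' r hr (meets_meets ?_)
  exact meets_mono (fun t ht => ht.1) hm

theorem mono_tail (h : NMeas κ V) (hκ : ℵ₀ < κ) (c : Ik κ) {Y Z : Ik κ → Set P} {q : P}
    (hY : q ∈ V Y) (hYZ : ∀ a, c < a → ∀ r ≤ q, r ∈ meets (Y a) → r ∈ meets (Z a)) :
    q ∈ V Z := by
  refine h.mono _ _ _ (h.inter2 hκ hY (h.tail c q)) fun a r hr hm => ?_
  obtain ⟨_, _, s, hs, _⟩ := hm r le_rfl
  obtain ⟨_, _, s', hs', _⟩ := hs.2 s le_rfl
  refine hYZ a hs' r hr (meets_meets ?_)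
  exact meets_mono (fun t ht => ht.1) hm

end NMeas

/-- enumerations of the ordinals below `κ⁺` -/
theorem exists_pi (κ : Cardinal.{0}) :
    ∃ π : Kp κ → Ik κ → Kp κ, ∀ σ, ∀ η < σ, ∃ γ, π σ γ = η := by
  classical
  have h : ∀ σ : Kp κ, ∃ p : Ik κ → Kp κ, ∀ η < σ, ∃ γ, p γ = η := by
    intro σ
    obtain ⟨g⟩ : #(Iio σ) ≤ #(Ik κ) := by
      rw [mk_ord_toType]
      exact Order.lt_succ_iff.1 (mk_Iio_toType_ord_lt σ)
    let p : Ik κ → Kp κ := fun γ => if h : ∃ w, g w = γ then h.choose.1 else σ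
    have hp : ∀ w, p (g w) = w.1 := by
      intro w
      have h : ∃ w', g w' = g w := ⟨_, rfl⟩
      have h1 : p (g w) = h.choose.1 := dif_pos h
      rw [h1, g.injective h.choose_spec]
    exact ⟨p, fun η hη => ⟨g ⟨η, hη⟩, hp _⟩⟩
  choose π hπ using h
  exact ⟨π, hπ⟩

/-- all the data -/
structure Dat (κ : Cardinal.{0}) (P : Type) [Preorder P] extends Frame κ P where
  hκ : κ.IsInaccessible
  hcc : CC P κ
  V : (Ik κ → Set P) → Set P
  hV : NMeas κ V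
  π : Kp κ → Ik κ → Kp κ
  hπ : ∀ σ, ∀ η < σ, ∃ γ, π σ γ = η

namespace Dat

variable {P : Type} [Preorder P] {κ : Cardinal.{0}} (T : Dat κ P)

/-- the small subset of `κ⁺` attached to `σ` and `ν` -/
def xs (σ : Kp κ) (ν : Ik κ) : Set (Kp κ) := T.π σ '' Iio ν

theorem xs_small (σ : Kp κ) (ν : Ik κ) : #(T.xs σ ν) < κ :=
  mk_image_le.trans_lt (mk_Iio_toType_ord_lt ν)

/-- the measure attached to `x` -/
def W (x : Set (Kp κ)) : (Ik κ → Set P) → Set P := T.toFrame.Vx T.V x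

theorem hW (x : Set (Kp κ)) : NMeas κ (T.W x) := T.toFrame.nmeas_Vx T.hV x

/-- the set of the `ν` such that `A` belongs to the measure attached to `xs σ ν` -/
def E (σ : Kp κ) (A : Ik κ → Set P) : Ik κ → Set P := fun ν => T.W (T.xs σ ν) A

theorem regE (σ : Kp κ) (A : Ik κ → Set P) (ν : Ik κ) : Reg (T.E σ A ν) := (T.hW _).isReg A

/-- the bound given by coherence -/
noncomputable def sg (A : Ik κ → Set P) : Kp κ := (T.toFrame.coh T.hκ T.hcc T.hV A).choose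

theorem sg_spec (A : Ik κ → Set P) {σ : Kp κ} (hσ : T.sg A ≤ σ) (x y : Set (Kp κ)) (hx : #x < κ)
    (hy : #y < κ) (h : ∀ η < σ, η ∈ x ↔ η ∈ y) : T.W x A = T.W y A :=
  (T.toFrame.coh T.hκ T.hcc T.hV A).choose_spec x y hx hy fun η hη => h η (hη.trans_le hσ)

theorem exists_clos (σ σ' : Kp κ) (h : σ ≤ σ') : ∃ f : Ik κ → Ik κ, ∀ a, (∀ γ < a, f γ < a) →
    ∀ η < σ, η ∈ T.xs σ a ↔ η ∈ T.xs σ' a := by
  classical
  have h1 : ∀ γ, ∃ γ', T.π σ γ < σ → T.π σ' γ' = T.π σ γ := by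
    intro γ
    by_cases hγ : T.π σ γ < σ
    · obtain ⟨γ', hγ'⟩ := T.hπ σ' (T.π σ γ) (hγ.trans_le h)
      exact ⟨γ', fun _ => hγ'⟩
    · exact ⟨γ, fun h' => absurd h' hγ⟩
  have h2 : ∀ γ, ∃ γ', T.π σ' γ < σ → T.π σ γ' = T.π σ' γ := by
    intro γ
    by_cases hγ : T.π σ' γ < σ
    · obtain ⟨γ', hγ'⟩ := T.hπ σ (T.π σ' γ) hγ
      exact ⟨γ', fun _ => hγ'⟩
    · exact ⟨γ, fun h' => absurd h' hγ⟩
  choose f1 hf1 using h1
  choose f2 hf2 using h2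
  refine ⟨fun γ => max (f1 γ) (f2 γ), fun a ha η hη => ⟨?_, ?_⟩⟩
  · rintro ⟨γ, hγ, rfl⟩
    exact ⟨f1 γ, (le_max_left _ _).trans_lt (ha γ hγ), hf1 γ hη⟩
  · rintro ⟨γ, hγ, rfl⟩
    exact ⟨f2 γ, (le_max_right _ _).trans_lt (ha γ hγ), hf2 γ hη⟩

theorem E_eq (A : Ik κ → Set P) {σ σ' : Kp κ} (h1 : T.sg A ≤ σ) {a : Ik κ}
    (h : ∀ η < σ, η ∈ T.xs σ a ↔ η ∈ T.xs σ' a) : T.E σ A a = T.E σ' A a :=
  T.sg_spec A h1 _ _ (T.xs_small _ _) (T.xs_small _ _) h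

theorem VE_eq (A : Ik κ → Set P) {σ σ' : Kp κ} (h1 : T.sg A ≤ σ) (h : σ ≤ σ') :
    T.V (T.E σ A) = T.V (T.E σ' A) := by
  obtain ⟨f, hf⟩ := T.exists_clos σ σ' h
  ext q
  constructor
  · intro hq
    refine T.hV.mono_clos T.hκ.1 f hq fun a ha r _ hr => ?_
    rwa [← T.E_eq A h1 (hf a ha)]
  · intro hq
    refine T.hV.mono_clos T.hκ.1 f hq fun a ha r _ hr => ?_
    rwa [T.E_eq A h1 (hf a ha)]

/-- the ultrafilter -/
noncomputable def U : (Ik κ → Set P) → Set P := fun A => T.V (T.E (T.sg A) A)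

theorem U_eq (A : Ik κ → Set P) {σ : Kp κ} (h : T.sg A ≤ σ) : T.U A = T.V (T.E σ A) :=
  T.VE_eq A le_rfl h

theorem regU (A : Ik κ → Set P) : Reg (T.U A) := T.hV.isReg _

theorem U_mono {X Y : Ik κ → Set P} {r : P} (h : r ∈ T.U X)
    (h' : ∀ b, ∀ t ≤ r, t ∈ meets (X b) → t ∈ meets (Y b)) : r ∈ T.U Y := by
  rw [T.U_eq X (le_max_left (T.sg X) (T.sg Y))] at h
  rw [T.U_eq Y (le_max_right (T.sg X) (T.sg Y))]
  refine T.hV.mono _ _ _ h fun a s hs hm => ?_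
  rw [(T.regE _ _ _).meets_eq] at hm ⊢
  exact (T.hW _).mono _ _ _ hm fun b t ht => h' b t (ht.trans hs)

/-- `U` is a `κ`-complete ultrafilter -/
theorem isMeasure_U (q : P) : q ∈ IsMeasure κ T.U := by
  have hκ0 : ℵ₀ ≤ κ := T.hκ.1.le
  refine ⟨?_, ?_, ?_, ?_⟩
  · intro X Y
    refine mem_fimp.2 fun r _ h => ⟨r, le_rfl, meets_of_mem ?_⟩
    refine T.U_mono ((T.regU X).reg _ h.1) fun b t ht hm => ?_
    exact fimp_meets (down_meets _) (down_fimp _ _ _ (h.2 b) _ ht) hm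
  · intro X
    refine ⟨mem_fimp.2 fun r _ h => ⟨r, le_rfl, fun s hs hs' => ?_⟩,
      mem_fimp.2 fun r _ h => ?_⟩
    · have h1 : s ∈ T.U X := (T.regU X).down _ ((T.regU X).reg r h) _ hs
      have h2 : s ∈ T.U (nCompl X) := (T.regU _).reg s hs'
      rw [T.U_eq X (le_max_left (T.sg X) (T.sg (nCompl X)))] at h1
      rw [T.U_eq _ (le_max_right (T.sg X) (T.sg (nCompl X)))] at h2
      obtain ⟨a, r', _, hr'⟩ := T.hV.exists_mem (T.hV.inter2 T.hκ.1 h1 h2)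
      obtain ⟨t, _, u, ⟨h3, h4⟩, htu⟩ := hr' r' le_rfl
      rw [(T.regE _ _ _).meets_eq] at h3 h4
      exact (T.hW _).disj X u h3 h4
    · obtain ⟨r', hr', h1 | h1⟩ := T.hV.dec (T.E (max (T.sg X) (T.sg (nCompl X))) X) r
      · rw [← T.U_eq X (le_max_left _ _)] at h1
        exact absurd (meets_of_mem h1) (h r' hr')
      · refine ⟨r', hr', meets_of_mem ?_⟩
        rw [T.U_eq _ (le_max_right (T.sg X) (T.sg (nCompl X)))]
        refine T.hV.mono _ _ _ h1 fun a s _ hm => ?_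
        have h2 : s ∈ fnot (meets (T.E (max (T.sg X) (T.sg (nCompl X))) X a)) :=
          meets_fnot (down_meets _) hm
        rw [(T.regE _ _ _).meets_eq]
        refine (T.regE _ _ _).of_dense fun s' hs' => ?_
        obtain ⟨t, ht, h3 | h3⟩ := (T.hW (T.xs (max (T.sg X) (T.sg (nCompl X))) a)).dec X s'
        · exact absurd (meets_of_mem (N := T.E _ X a) h3) (h2 t (ht.trans hs'))
        · exact ⟨t, ht, h3⟩
  · intro ν hν X
    refine mem_fimp.2 fun r _ h => ⟨r, le_rfl, meets_of_mem ?_⟩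
    obtain ⟨σ0, hσ0⟩ := h400_bdd hκ0 ν.out (by rw [mk_out]; exact hν.le) (fun i => T.sg (X i))
    have h1 := T.hV.compl ν.out (fun i => T.E (max σ0 (T.sg (nInter X))) (X i)) r
      (by rwa [mk_out]) (fun i => by
        rw [← T.U_eq (X i) ((hσ0 i).trans (le_max_left _ _))]
        exact (T.regU _).reg _ (h i))
    rw [T.U_eq _ (le_max_right σ0 (T.sg (nInter X)))]
    refine T.hV.mono _ _ _ h1 fun a s _ hm => meets_mono (fun t ht => ?_) hm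
    exact (T.hW _).compl ν.out X t (by rwa [mk_out]) fun i => (T.regE _ _ _).reg _ (ht i)
  · intro a r _ h
    have h1 := (T.regU _).reg r h
    obtain ⟨b, s, _, h2⟩ := T.hV.exists_mem h1
    rw [(T.regE _ _ _).meets_eq] at h2
    obtain ⟨c, t, _, h3⟩ := (T.hW _).exists_mem ((T.hW _).inter2 T.hκ.1 h2 ((T.hW _).tail a s))
    obtain ⟨_, _, u, ⟨h4, h5⟩, _⟩ := h3 t le_rfl
    obtain ⟨_, _, v, hv, _⟩ := h4 u le_rfl
    obtain ⟨_, _, v', hv', _⟩ := h5 u le_rfl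
    have h6 : c = a := hv
    have h7 : a < c := hv'
    rw [h6] at h7
    exact lt_irrefl _ h7

end Dat

end Pool.Agent.H53.Gal
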