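import Mathlib
import Pool.Agent.H53.Gal.Umeas

set_option autoImplicit false

/-!
# Failure of the Galvin property at `κ⁺`
-/

namespace Pool.Agent.H53.Gal

open Cardinal Set Pool.Agent.Helper669.Forcing Pool.Agent.Helper669.K Pool.Agent.W873.Tp
open Pool.Agent.W873.Vi Pool.Agent.Helper403.SZ

theorem reg_fimp {P : Type} [Preorder P] {φ ψ : Set P} (h : Down φ) : Reg (fimp φ ψ) :=
  reg_fnot (down_fand h (down_fnot _))

/-- an injective function from `κ` has a value outside any small set of the ground model -/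
theorem exists_value {P : Type} [Preorder P] {κ : Cardinal.{0}} {S I : Type} (r : P)
    (hreg : ∀ q : P, q ∈ StaysRegular P κ) (hκ : ℵ₀ < κ) (f : S → I → Set P) (hS : #S = κ)
    (hf1 : r ∈ IsFun f) (hf2 : r ∈ IsInj f) (x : Set I) (hx : #x < κ) :
    ∃ s ≤ r, ∃ ξ i, i ∉ x ∧ s ∈ meets (f ξ i) := by
  classical
  by_contra hcon
  push Not at hcon
  have hcon' : ∀ s ≤ r, ∀ ξ i, s ∈ meets (f ξ i) → i ∈ x := by
    intro s hs ξ i h
    by_contra hi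
    exact hcon s hs ξ i hi h
  obtain ⟨k⟩ : Nonempty (Ik κ ≃ S) := by
    rw [← Cardinal.eq, mk_ord_toType, hS]
  let g : (#x).out ≃ x := Cardinal.outMkEquiv
  obtain ⟨z⟩ : Nonempty (Ik κ) := by
    rw [← mk_ne_zero_iff, mk_ord_toType]
    exact (aleph0_pos.trans hκ).ne'
  let R : (#x).out → Ik κ → Set P := fun j ζ =>
    {s | s ∈ meets (f (k ζ) (g j).1) ∨ (ζ = z ∧ ∀ ζ', s ∈ fnot (meets (f (k ζ') (g j).1)))}
  have hRd : ∀ j ζ, Down (R j ζ) := by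
    rintro j ζ s (h | ⟨h, h'⟩) t ht
    · exact Or.inl (down_meets _ _ h _ ht)
    · exact Or.inr ⟨h, fun ζ' => down_fnot _ _ (h' ζ') _ ht⟩
  have hR : r ∈ IsFun R := by
    refine ⟨fun j => mem_fex.2 fun q hq => ?_, fun j ζ ζ' => mem_fimp.2 fun q hq h => ?_⟩
    · by_cases h : ∃ s ≤ q, ∃ ζ, s ∈ meets (f (k ζ) (g j).1)
      · obtain ⟨s, hs, ζ, hζ⟩ := h
        exact ⟨s, hs, ζ, meets_of_mem (Or.inl hζ)⟩
      · push Not at h
        exact ⟨q, le_rfl, z, meets_of_mem (Or.inr ⟨rfl, fun ζ' s hs => h s hs ζ'⟩)⟩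
    · refine ⟨q, le_rfl, ?_⟩
      obtain ⟨s, hs, hsR⟩ := exists_of_meets (hRd j ζ) h.1
      obtain ⟨t, ht, htR⟩ := exists_of_meets (hRd j ζ') (down_meets _ _ h.2 _ hs)
      have hsR' := hRd j ζ s hsR t ht
      have htr : t ≤ r := ht.trans (hs.trans hq)
      change ζ = ζ'
      rcases hsR' with h1 | h1
      · rcases htR with h2 | h2
        · exact k.injective (IsInj.eq (down_IsInj _ _ hf2 _ htr) h1 h2)
        · exact absurd h1 (h2.2 ζ t le_rfl)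
      · rcases htR with h2 | h2
        · exact absurd h2 (h1.2 ζ' t le_rfl)
        · rw [h1.1, h2.1]
  obtain ⟨r1, hr1, h1⟩ := mem_fimp.1 (hreg r (#x) hx R) r le_rfl hR
  obtain ⟨r2, hr2, b, hb⟩ := mem_fex.1 h1 r1 le_rfl
  have hr2r : r2 ≤ r := hr2.trans hr1
  obtain ⟨r3, hr3, i, hi⟩ := IsFun.total (down_IsFun _ _ hf1 _ hr2r) (k b)
  have hix := hcon' r3 (hr3.trans hr2r) (k b) i hi
  have h2 : r3 ∈ meets (R (g.symm ⟨i, hix⟩) b) := by
    refine meets_of_mem (Or.inl ?_)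
    rw [Equiv.apply_symm_apply]
    exact hi
  obtain ⟨r4, _, h3⟩ := mem_fimp.1 (hb (g.symm ⟨i, hix⟩) b) r3 hr3 h2
  exact lt_irrefl b (mem_fground.1 h3)

namespace Dat

variable {P : Type} [Preorder P] {κ : Cardinal.{0}} (T : Dat κ P)

theorem notGal (hreg : ∀ q : P, q ∈ StaysRegular P κ) (b : Kp κ → Ik κ → Set P)
    (hb1 : ∀ η (x : Set (Kp κ)), η ∈ x → ∀ q, q ∈ T.W x (b η))
    (hb2 : ∀ η (x : Set (Kp κ)), η ∉ x → ∀ q, q ∉ T.W x (b η)) (q : P) :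
    q ∈ fnot (Galvin T.U κ (Order.succ κ)) := by
  intro q1 _ hG
  obtain ⟨e⟩ : Nonempty ((Order.succ κ).out ≃ Kp κ) := by
    rw [← Cardinal.eq, mk_out, mk_ord_toType]
  have hex : ∀ η : Kp κ, ∃ σ : Kp κ, η < σ := by
    intro η
    obtain ⟨σ, hσ⟩ := bdd_of_lt (isRegular_succ T.hκ.1.le) {η} (by
      rw [mk_singleton]
      exact one_lt_aleph0.trans (T.hκ.1.trans (Order.lt_succ κ)))
    exact ⟨σ, hσ η rfl⟩
  have hbU : ∀ η q, q ∈ T.U (b η) := by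
    intro η q
    obtain ⟨σ, hσ⟩ := hex (max η (T.sg (b η)))
    rw [T.U_eq (b η) ((le_max_right _ _).trans hσ.le)]
    obtain ⟨γ, hγ⟩ := T.hπ σ η ((le_max_left _ _).trans_lt hσ)
    refine T.hV.mono _ _ _ (T.hV.tail γ q) fun a s _ hs => ?_
    obtain ⟨_, _, t, ht, _⟩ := hs s le_rfl
    refine meets_of_mem (hb1 η _ ?_ s)
    exact ⟨γ, ht, hγ⟩
  obtain ⟨r0, hr0, h0⟩ := mem_fimp.1 (hG (fun i => b (e i))) q1 le_rfl
    (fun i => meets_of_mem (hbU (e i) q1))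
  obtain ⟨r, hr, f, hf1, hf2, hf3⟩ := mem_fex.1 h0 r0 le_rfl
  let B : Ik κ → Set P := fun c => fall fun ξ => fall fun i =>
    fimp (meets (f ξ i)) (meets (b (e i) c))
  have hBU : r ∈ T.U B := (T.regU B).reg r hf3
  obtain ⟨ν, r2, hr2, h2⟩ := T.hV.exists_mem (show r ∈ T.V (T.E (T.sg B) B) from hBU)
  rw [(T.regE _ _ _).meets_eq] at h2
  have h2' : r2 ∈ T.W (T.xs (T.sg B) ν) B := h2
  obtain ⟨s, hs, ξ, i, hi, hm⟩ := exists_value r2 hreg T.hκ.1 f (mk_out κ)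
    (down_IsFun _ _ hf1 _ hr2) (down_IsInj _ _ hf2 _ hr2) (e ⁻¹' (T.xs (T.sg B) ν)) (by
      rw [mk_preimage_equiv]
      exact T.xs_small _ _)
  refine hb2 (e i) (T.xs (T.sg B) ν) hi s ?_
  refine (T.hW _).mono _ _ _ ((T.hW _).down _ _ h2' _ hs) fun c t ht hc => ?_
  have h3 : t ∈ B c := (reg_fall fun ξ => reg_fall fun i => reg_fimp (down_meets _)).reg t hc
  exact fimp_meets (down_meets _) (h3 ξ i) (down_meets _ _ hm _ ht)

end Dat

end Pool.Agent.H53.Gal
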