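import Mathlib
import Pool.Agent.H53.Gal.NotGal
import Pool.Agent.H53.Gal.Pigeon
import Pool.Graph.R_seed8.Helper669.KFinal

set_option autoImplicit false

/-!
# The Galvin property above `κ⁺`
-/

namespace Pool.Agent.H53.Gal

open Cardinal Set Pool.Agent.Helper669.Forcing Pool.Agent.Helper669.K Pool.Agent.W873.Tp
open Pool.Agent.W873.Vi Pool.Agent.Helper403.SZ

theorem fimp_reg {P : Type} [Preorder P] {φ ψ : Set P} (hφ : Down φ) (hψ : Reg ψ) {q : P}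
    (h : q ∈ fimp φ ψ) (hq : q ∈ φ) : q ∈ ψ :=
  hψ.of_dense fun r hr => mem_fimp.1 h r hr (hφ _ hq _ hr)

theorem meets_all {P ι : Type} [Preorder P] {S : ι → Prop} {Y : ι → Set P} {q : P}
    (h : q ∈ meets {s | ∀ i, S i → s ∈ meets (Y i)}) (i : ι) (hi : S i) : q ∈ meets (Y i) :=
  meets_meets (meets_mono (N := {s | ∀ i, S i → s ∈ meets (Y i)}) (N' := meets (Y i))
    (fun _ hs => hs i hi) h)

namespace Dat

variable {P : Type} [Preorder P] {κ : Cardinal.{0}} (T : Dat κ P)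

theorem yesGal (hpow : PowSmall κ P) (hD : ∀ a : Ik κ, ∃ d, IsD d ∧ a < d) (θ : Cardinal.{0})
    (hθ : Order.succ κ < θ) (q : P) : q ∈ Galvin T.U κ θ := by
  classical
  have hκ0 : ℵ₀ ≤ κ := T.hκ.1.le
  intro A
  refine mem_fimp.2 fun r _ hA => ⟨r, le_rfl, ?_⟩
  -- uniformisation of the supports
  obtain ⟨σ, hσ⟩ := exists_fiber (ι := θ.out) (Y := Kp κ) (κ := Order.succ κ)
    (hκ0.trans (Order.le_succ κ)) (by rwa [mk_out]) (mk_ord_toType _).le (fun i => T.sg (A i))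
  let I : Set θ.out := {i | T.sg (A i) = σ}
  have hI : κ < #I := (Order.lt_succ κ).trans hσ
  -- types
  choose dd hdd1 hdd2 using hD
  choose C0 Ty hC hTy1 hTy2 hTy3 using fun γ => exists_types hκ0 T.hcc hpow (dd γ) (hdd1 γ)
  let τ : ∀ γ : Ik κ, C0 γ × C0 γ → I → Set P := fun γ z i =>
    Ty γ z.1 (A i.1) ∩ Ty γ z.2 (T.E σ (A i.1))
  have hτ : ∀ γ z i, Down (τ γ z i) := fun γ z i p hp q hq =>
    ⟨hTy1 γ _ _ _ hp.1 _ hq, hTy1 γ _ _ _ hp.2 _ hq⟩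
  have hτd : ∀ γ i r, ∃ r' ≤ r, ∃ z, r' ∈ τ γ z i := by
    intro γ i r
    obtain ⟨r1, h1, z1, hz1⟩ := hTy2 γ (A i.1) r
    obtain ⟨r2, h2, z2, hz2⟩ := hTy2 γ (T.E σ (A i.1)) r1
    exact ⟨r2, h2.trans h1, (z1, z2), hTy1 γ _ _ _ hz1 _ h2, hz2⟩
  obtain ⟨i0, hi0⟩ := exists_star (S := Ik κ) hκ0 T.hcc hI (mk_ord_toType _).le
    (C := fun γ => C0 γ × C0 γ) (fun γ => by
      rw [← mul_def]
      exact (mul_le_mul' (hC γ) (hC γ)).trans (mul_eq_self hκ0).le) τ hτ hτd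
  obtain ⟨f, hf1, hf2, hf3, hf4, hf5⟩ := exists_choice T.hκ.isRegular T.hcc τ hτ i0 hi0
  obtain ⟨k⟩ : Nonempty (κ.out ≃ Ik κ) := by
    rw [← Cardinal.eq, mk_out, mk_ord_toType]
  let f' : κ.out → θ.out → Set P := fun ξ i => {p | ∃ h : i ∈ I, p ∈ f (k ξ) ⟨i, h⟩}
  have hf'd : ∀ ξ i, Down (f' ξ i) := by
    rintro ξ i p ⟨h, hp⟩ q hq
    exact ⟨h, hf1 _ _ _ hp _ hq⟩
  -- the bound
  let B : Ik κ → Set P := fun b => fall fun ξ => fall fun i =>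
    fimp (meets (f' ξ i)) (meets (A i b))
  refine mem_fex_of_mem f' ?_ ⟨⟨?_, ?_⟩, ?_, ?_⟩
  · refine down_fand (down_IsFun _) (down_fand (down_IsInj _) (down_meets _))
  · intro ξ
    refine mem_fex.2 fun s _ => ?_
    obtain ⟨t, ht, i, hi⟩ := hf2 (k ξ) s
    exact ⟨t, ht, i.1, meets_of_mem ⟨i.2, hi⟩⟩
  · intro ξ i i'
    refine mem_fimp.2 fun s _ h => ⟨s, le_rfl, ?_⟩
    obtain ⟨t, ht, h1, h1'⟩ := exists_of_meets (hf'd ξ i) h.1
    obtain ⟨u, hu, h2, h2'⟩ := exists_of_meets (hf'd ξ i') (down_meets _ _ h.2 _ ht)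
    exact congrArg Subtype.val (hf3 _ _ _ u (hf1 _ _ _ h1' _ hu) h2')
  · intro ξ ξ' i
    refine mem_fimp.2 fun s _ h => ⟨s, le_rfl, ?_⟩
    obtain ⟨t, ht, h1, h1'⟩ := exists_of_meets (hf'd ξ i) h.1
    obtain ⟨u, hu, h2, h2'⟩ := exists_of_meets (hf'd ξ' i) (down_meets _ _ h.2 _ ht)
    exact k.injective (hf4 _ _ _ u (hf1 _ _ _ h1' _ hu) h2')
  change r ∈ meets (T.U B)
  refine meets_of_mem ?_
  rw [T.U_eq B (le_max_right σ (T.sg B))]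
  obtain ⟨c, hc⟩ := T.exists_clos σ (max σ (T.sg B)) (le_max_left _ _)
  have hAi : ∀ i : I, r ∈ T.V (T.E σ (A i.1)) := by
    intro i
    have h1 := (T.regU _).reg r (hA i.1)
    rwa [T.U_eq (A i.1) (show T.sg (A i.1) ≤ σ from i.2.le)] at h1
  let Y : Ik κ → Ik κ → Set P := fun γ ν => fall fun i : I => fimp (meets (f γ i)) (T.E σ (A i.1) ν)
  have hYreg : ∀ γ ν, Reg (Y γ ν) := fun γ ν => reg_fall fun i => reg_fimp (down_meets _)
  have hY : ∀ γ, r ∈ T.V (Y γ) := by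
    intro γ
    refine (T.hV.isReg _).of_dense fun q' hq' => ?_
    obtain ⟨s, hs, i, hi⟩ := hf2 γ q'
    refine ⟨s, hs, T.hV.mono _ _ _ (T.hV.down _ _ (hAi i) _ (hs.trans hq')) fun a t ht hm => ?_⟩
    rw [(T.regE _ _ _).meets_eq] at hm
    refine meets_of_mem fun i' => mem_fimp.2 fun u hu h => ?_
    obtain ⟨v, hv, hvi⟩ := exists_of_meets (hf1 γ i') h
    have h1 : i = i' := hf3 γ i i' v (hf1 _ _ _ hi _ (hv.trans (hu.trans ht))) hvi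
    subst h1
    exact ⟨v, hv, (T.regE _ _ _).down _ hm _ (hv.trans hu)⟩
  have h2 := T.hV.inter2 T.hκ.1 (T.hV.diag Y r hY) (hAi i0)
  refine T.hV.mono_clos T.hκ.1 c h2 fun a ha s0 hs0 hm => ?_
  rw [(T.regE _ _ _).meets_eq]
  refine (T.regE _ _ _).of_dense fun s1 hs1 => ?_
  obtain ⟨s, hs, u, ⟨hu1, hu2⟩, hsu⟩ := hm s1 hs1
  refine ⟨s, hs, ?_⟩
  have g1 : ∀ γ < a, s ∈ Y γ a := fun γ hγ => (hYreg γ a).reg _
    (down_meets _ _ (meets_all (S := fun γ => γ < a) (Y := fun γ => Y γ a) hu1 γ hγ) _ hsu)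
  have g2 : s ∈ meets (T.E σ (A i0.1) a) := down_meets _ _ hu2 _ hsu
  have hWi : ∀ i : I, T.E σ (A i.1) a = T.W (T.xs (max σ (T.sg B)) a) (A i.1) := fun i =>
    T.E_eq (A i.1) i.2.le (hc a ha)
  change s ∈ T.W (T.xs (max σ (T.sg B)) a) B
  obtain ⟨x, hx⟩ : ∃ x, x = T.xs (max σ (T.sg B)) a := ⟨_, rfl⟩
  rw [← hx] at hWi ⊢
  let Z : Ik κ → Ik κ → Set P := fun γ β => fall fun i : I => fimp (meets (f γ i)) (meets (A i.1 β))
  have hZreg : ∀ γ β, Reg (Z γ β) := fun γ β => reg_fall fun i => reg_fimp (down_meets _)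
  have hZ : ∀ γ, s ∈ T.W x (Z γ) := by
    intro γ
    refine ((T.hW x).isReg _).of_dense fun q' hq' => ?_
    obtain ⟨t, ht, i, hi⟩ := hf2 γ q'
    have hts : t ≤ s := ht.trans hq'
    have h3 : t ∈ T.W x (A i.1) := by
      rw [← hWi i]
      rcases lt_or_ge γ a with hγ | hγ
      · exact fimp_reg (down_meets _) (T.regE _ _ _) ((hYreg γ a).down _ (g1 γ hγ) _ hts i)
          (meets_of_mem hi)
      · obtain ⟨z, hz1, hz2⟩ := hf5 γ i t hi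
        refine (T.regE _ _ _).reg _ ?_
        refine (hTy3 γ _ _ _ _ hz1.2 hz2.2 a (hγ.trans_lt (hdd2 γ)) t le_rfl).1 ?_
        exact down_meets _ _ g2 _ hts
    refine ⟨t, ht, (T.hW x).mono _ _ _ h3 fun β u hu hm => ?_⟩
    refine meets_of_mem fun i' => mem_fimp.2 fun v hv h => ?_
    obtain ⟨w, hw, hwi⟩ := exists_of_meets (hf1 γ i') h
    have h1 : i = i' := hf3 γ i i' w (hf1 _ _ _ hi _ (hw.trans (hv.trans hu))) hwi
    subst h1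
    exact ⟨w, hw, down_meets _ _ hm _ (hw.trans hv)⟩
  have hi0W : s ∈ T.W x (A i0.1) := by
    rw [← hWi i0]
    exact (T.regE _ _ _).reg _ g2
  have h4 := (T.hW x).inter2 T.hκ.1 ((T.hW x).diag Z s hZ) hi0W
  have hBreg : ∀ β, Reg (B β) := fun β => reg_fall fun ξ => reg_fall fun i =>
    reg_fimp (down_meets _)
  refine (T.hW x).mono _ _ _ h4 fun β t0 _ hm0 => ?_
  rw [(hBreg β).meets_eq]
  refine (hBreg β).of_dense fun t1 ht1 => ?_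
  obtain ⟨t, ht, w, ⟨hw1, hw2⟩, htw⟩ := hm0 t1 ht1
  refine ⟨t, ht, fun ξ i => mem_fimp.2 fun u hu h => ?_⟩
  obtain ⟨v, hv, hvI, hvf⟩ := exists_of_meets (hf'd ξ i) h
  have hvw : v ≤ w := hv.trans (hu.trans htw)
  refine ⟨v, hv, ?_⟩
  rcases lt_or_ge (k ξ) β with hγ | hγ
  · have h5 : v ∈ Z (k ξ) β := (hZreg _ _).reg _
      (down_meets _ _ (meets_all (S := fun γ => γ < β) (Y := fun γ => Z γ β) hw1 (k ξ) hγ) _ hvw)
    exact fimp_meets (down_meets _) (h5 ⟨i, hvI⟩) (meets_of_mem hvf)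
  · obtain ⟨z, hz1, hz2⟩ := hf5 (k ξ) ⟨i, hvI⟩ v hvf
    refine (hTy3 (k ξ) _ _ _ _ hz1.1 hz2.1 β (hγ.trans_lt (hdd2 (k ξ))) v le_rfl).1 ?_
    exact down_meets _ _ hw2 _ hvw

end Dat

end Pool.Agent.H53.Gal
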