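import Mathlib
import Pool.Agent.H53.Gal.Master
import Pool.Agent.H53.Gal.Pow
import Pool.Agent.H53.Gal.YesGal
import Pool.Graph.R_pool_sql_team_seeded_620a6dc7.Helper403_SZ.T0
import Pool.Graph.R_pool_sql_team_seeded_620a6dc7.Helper403_SZ.Tcard
import Pool.Graph.R_pool_sql_team_seeded_620a6dc7.Helper403_SZ.TC0
import Pool.Graph.R_pool_sql_team_seeded_620a6dc7.Helper403_SZ.TC4

set_option autoImplicit false

/-!
# The Galvin property at `2 ^ κ` and at `κ⁺`
-/

namespace Pool.Agent.H53.Gal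

open Cardinal Set Pool.Agent.Helper669.Forcing Pool.Agent.Helper669.K Pool.Agent.W873.Tp
open Pool.Agent.W873.Vi Pool.Agent.Helper403.SZ

theorem unbounded_D {κ : Cardinal.{0}} (hsc : IsSupercompact κ) (a : Ik κ) :
    ∃ d, IsD d ∧ a < d := by
  obtain ⟨U, hU⟩ := hsc.2 (Ik κ)
  obtain ⟨α, h1, _⟩ := TC5a.jobC5a κ (inacc hsc) (Ik κ) U hU id Function.injective_id
  obtain ⟨X, hX1, hX2⟩ := (h1.and (hU.fine a)).exists
  exact ⟨α X, hX1.1, (hX1.2 a).1 hX2⟩

theorem exists_rows {κ : Cardinal.{0}} (hκ : ℵ₀ ≤ κ) (L : Type) (hL : Order.succ κ ≤ #L) :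
    Nonempty (Rows κ L) := by
  have hL0 : ℵ₀ ≤ #L := hκ.trans ((Order.le_succ κ).trans hL)
  obtain ⟨e⟩ : Nonempty (L ≃ Kp κ × L) := by
    rw [← Cardinal.eq, ← mul_def, mk_ord_toType]
    exact (mul_eq_right hL0 hL (ne_of_gt ((aleph0_pos.trans_le hκ).trans (Order.lt_succ κ)))).symm
  have : Nontrivial L := by
    rw [← one_lt_iff_nontrivial]
    exact one_lt_aleph0.trans_le hL0
  obtain ⟨z0, z1, hz⟩ := exists_pair_ne L
  refine ⟨⟨fun ξ => (e ξ).1, fun η => e.symm (η, z0), fun η => e.symm (η, z1), fun η => ?_,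
    fun η => ?_, fun η h => ?_⟩⟩
  · rw [Equiv.apply_symm_apply]
  · rw [Equiv.apply_symm_apply]
  · have h1 := e.symm.injective h
    simp only [Prod.mk.injEq, true_and] at h1
    exact hz h1

/-- If `κ` is supercompact, then there is a forcing notion which keeps `κ` regular, preserves the
cardinals from `κ` on, and forces that `2 ^ κ` is the ground model cardinal `(2 ^ κ)⁺` (so that
`κ⁺ < 2 ^ κ`), and that there is a `κ`-complete non-principal ultrafilter `U` on `κ` such that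
`Gal(U, κ, κ⁺)` fails, `Gal(U, κ, 2 ^ κ)` holds, and indeed `Gal(U, κ, θ)` holds for every
cardinal `θ > κ⁺`. -/
theorem main (κ : Cardinal.{0}) (hκ : IsSupercompact κ) :
    ∃ (P : Type) (_ : Preorder P), Nonempty P ∧ ∀ p : P,
      p ∈ StaysRegular P κ ∧ p ∈ PreservesFrom P κ ∧
      p ∈ PowIs P κ (Order.succ (2 ^ κ : Cardinal.{0})) ∧
      p ∈ fex fun U : (κ.ord.ToType → Set P) → Set P =>
        fand (IsMeasure κ U) (fand (fnot (Galvin U κ (Order.succ κ)))
          (fand (Galvin U κ (Order.succ (2 ^ κ : Cardinal.{0})))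
            (fall fun θ : Cardinal.{0} => fall fun _ : Order.succ κ < θ => Galvin U κ θ))) := by
  have hi : κ.IsInaccessible := inacc hκ
  have hκ0 : ℵ₀ ≤ κ := hi.1.le
  obtain ⟨S⟩ := TC0.jobC0 κ hi
  obtain ⟨hne, hR, hccs⟩ := jobC3 κ hκ hi S
  let L : Type := (Order.succ (2 ^ κ : Cardinal.{0})).ord.ToType
  have hL : #L = Order.succ (2 ^ κ) := mk_ord_toType _
  obtain ⟨T⟩ := exists_rows hκ0 L (by
    rw [hL]
    exact Order.succ_le_succ (cantor κ).le)
  have hΘ : #(BC κ L S.RR Empty) ≤ plus (2 ^ κ) 1 := card_BC hκ0 1 hL.le hR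
  obtain ⟨V, hV, hV1, hV2⟩ := exists_V hκ S T hΘ
  have hN : NClosed κ (N0 κ L S.RR) := fun D hD hdir => by
    obtain ⟨m, hm, _⟩ := jobB2a κ L S.RR Empty hi hccs W0 goodW0 D hD hdir
    exact ⟨m, hm⟩
  have hcc : CC (Q0 κ L S.RR) κ := jobB2b κ L S.RR Empty hi hR W0 goodW0
  have hreg := job0 κ hi S.RR _ (N0 κ L S.RR) hccs hN
  have hpow := (jobC4 jobC1 (TC2.jobC2 jobC1) κ hi S _ (N0 κ L S.RR) hN).2
  obtain ⟨π, hπ⟩ := exists_pi κ
  let D : Dat κ (Q0 κ L S.RR) := {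
    toFrame := cohenFrame hκ0 T
    hκ := hi
    hcc := hcc
    V := V
    hV := hV
    π := π
    hπ := hπ }
  have hW : ∀ (x : Set (Kp κ)) (η : Kp κ) (q : Q0 κ L S.RR), q ∈ D.W x (row (T.rb η)) ↔
      D.θ x q ∈ V (row (T.sw x (T.rb η))) := fun x η q => Iff.rfl
  have hsucc : Order.succ κ < Order.succ (2 ^ κ) := Order.succ_lt_succ (cantor κ)
  refine ⟨Q0 κ L S.RR, inferInstance, ?_, fun p => ⟨hreg p, jobcard κ hi _ hcc p, ⟨?_, ?_⟩, ?_⟩⟩
  · obtain ⟨r⟩ := hne
    exact ⟨(r, emp κ hi.pos L S.RR Empty)⟩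
  · refine powLe hcc _ (plus_pow hκ0 1) (hκ0.trans ((cantor κ).le.trans (Order.le_succ _))) ?_ p
    change #(S.RR × BC κ L S.RR Empty) ≤ plus (2 ^ κ) 1
    rw [← mul_def]
    refine (mul_le_mul' (hR.trans ((cantor κ).le.trans (Order.le_succ _))) hΘ).trans ?_
    exact (mul_eq_self (hκ0.trans ((cantor κ).le.trans (Order.le_succ _)))).le
  · intro ν hν
    exact not_powLe hκ0 hcc (fun ξ : L => row ξ)
      (distinct_row hi.isRegular (S.top hi) (S.le_top hi) fun p => exists_sup hi.isRegular p) ν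
      (Order.lt_succ_iff.1 hν) (by rw [hL]; exact Order.lt_succ _) p
  · refine mem_fex_of_mem D.U ?_ ⟨D.isMeasure_U p, ?_,
      D.yesGal hpow (unbounded_D hκ) _ hsucc p, ?_⟩
    · refine down_fand (en_down_IsMeasure _) (down_fand (down_fnot _) (down_fand ?_ ?_))
      · exact down_fall fun _ => down_fimp _ _
      · exact down_fall fun θ => down_fall fun _ => down_fall fun _ => down_fimp _ _
    · refine D.notGal hreg (fun η => row (T.rb η)) ?_ ?_ p
      · intro η x hη q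
        rw [hW, T.sw_rb hη]
        exact hV1 η _
      · intro η x hη q
        rw [hW, T.sw_of_not (by rwa [T.lev_rb])]
        exact hV2 η _
    · intro θ hθ
      exact D.yesGal hpow (unbounded_D hκ) θ hθ p

end Pool.Agent.H53.Gal
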